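import Mathlib

/-! Elementary facts about the integers `⌊(4/3)^n⌋`, written as `4^n / 3^n`. -/

namespace Pool.Agent.helper87

/-- `fa n = ⌊(4/3)^n⌋`, as a quotient of natural numbers. -/
def fa (n : ℕ) : ℕ := 4 ^ n / 3 ^ n

theorem floor_eq_fa (n : ℕ) : ⌊((4 : ℝ) / 3) ^ n⌋₊ = fa n := by
  unfold fa
  rw [div_pow]
  have := Nat.floor_div_eq_div (K := ℝ) (4 ^ n) (3 ^ n)
  push_cast at this
  exact this

theorem fa_mul_le (n : ℕ) : 3 ^ n * fa n ≤ 4 ^ n := Nat.mul_div_le _ _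

theorem lt_mul_fa (n : ℕ) : 4 ^ n < 3 ^ n * (fa n + 1) :=
  Nat.lt_mul_div_succ _ (by positivity)

theorem fa_step_up (n : ℕ) : 3 * fa (n + 1) < 4 * fa n + 4 := by
  have h1 := fa_mul_le (n + 1)
  have h2 := lt_mul_fa n
  have h3 : 3 ^ n * (3 * fa (n + 1)) < 3 ^ n * (4 * fa n + 4) := by
    calc 3 ^ n * (3 * fa (n + 1)) = 3 ^ (n + 1) * fa (n + 1) := by ring
      _ ≤ 4 ^ (n + 1) := h1
      _ = 4 * 4 ^ n := by ring
      _ < 4 * (3 ^ n * (fa n + 1)) := by omega
      _ = 3 ^ n * (4 * fa n + 4) := by ring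
  exact lt_of_mul_lt_mul_left h3 (Nat.zero_le _)

theorem fa_step_down (n : ℕ) : 4 * fa n < 3 * fa (n + 1) + 3 := by
  have h1 := fa_mul_le n
  have h2 := lt_mul_fa (n + 1)
  have h3 : 3 ^ n * (4 * fa n) < 3 ^ n * (3 * fa (n + 1) + 3) := by
    calc 3 ^ n * (4 * fa n) = 4 * (3 ^ n * fa n) := by ring
      _ ≤ 4 * 4 ^ n := by omega
      _ = 4 ^ (n + 1) := by ring
      _ < 3 ^ (n + 1) * (fa (n + 1) + 1) := h2
      _ = 3 ^ n * (3 * fa (n + 1) + 3) := by ring
  exact lt_of_mul_lt_mul_left h3 (Nat.zero_le _)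

theorem fa_three (n : ℕ) : 64 * fa n < 27 * fa (n + 3) + 27 := by
  have h1 := fa_mul_le n
  have h2 := lt_mul_fa (n + 3)
  have h3 : 3 ^ n * (64 * fa n) < 3 ^ n * (27 * fa (n + 3) + 27) := by
    calc 3 ^ n * (64 * fa n) = 64 * (3 ^ n * fa n) := by ring
      _ ≤ 64 * 4 ^ n := by omega
      _ = 4 ^ (n + 3) := by ring
      _ < 3 ^ (n + 3) * (fa (n + 3) + 1) := h2
      _ = 3 ^ n * (27 * fa (n + 3) + 27) := by ring
  exact lt_of_mul_lt_mul_left h3 (Nat.zero_le _)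

attribute [irreducible] fa

/-- Coprime to `2·3·5·7`. -/
def Good (m : ℕ) : Prop := m % 2 ≠ 0 ∧ m % 3 ≠ 0 ∧ m % 5 ≠ 0 ∧ m % 7 ≠ 0

/-- Composite: larger than 1 and not prime. -/
def Comp (m : ℕ) : Prop := 1 < m ∧ ¬ m.Prime

theorem good_of_not_comp {m : ℕ} (h7 : 7 < m) (h : ¬ Comp m) : Good m := by
  have hp : m.Prime := by
    by_contra hc
    exact h ⟨by omega, hc⟩
  have key : ∀ q : ℕ, q.Prime → q ≤ 7 → m % q ≠ 0 := by
    intro q hq hq7 h0
    have hd : q ∣ m := Nat.dvd_of_mod_eq_zero h0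
    rcases (Nat.dvd_prime hp).1 hd with h1 | h1
    · exact hq.one_lt.ne' h1
    · omega
  exact ⟨key 2 (by norm_num) (by norm_num), key 3 (by norm_num) (by norm_num),
    key 5 (by norm_num) (by norm_num), key 7 (by norm_num) (by norm_num)⟩

theorem good_step {n : ℕ} (h0 : Good (fa n)) (h1 : Good (fa (n + 1))) :
    3 * fa (n + 1) = 4 * fa n + 1 ∨ 3 * fa (n + 1) + 1 = 4 * fa n := by
  have hu := fa_step_up n
  have hd := fa_step_down n
  obtain ⟨a2, a3, a5, a7⟩ := h0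
  obtain ⟨b2, b3, b5, b7⟩ := h1
  omega

theorem state4 {n : ℕ} (h0 : Good (fa n)) (h1 : Good (fa (n + 1))) (h : fa n % 5 = 4) :
    3 * fa (n + 1) = 4 * fa n + 1 ∧ fa (n + 1) % 5 = 4 := by
  have hs := good_step h0 h1
  obtain ⟨a2, a3, a5, a7⟩ := h0
  obtain ⟨b2, b3, b5, b7⟩ := h1
  omega

theorem state1 {n : ℕ} (h0 : Good (fa n)) (h1 : Good (fa (n + 1))) (h : fa n % 5 = 1) :
    3 * fa (n + 1) + 1 = 4 * fa n ∧ fa (n + 1) % 5 = 1 := by
  have hs := good_step h0 h1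
  obtain ⟨a2, a3, a5, a7⟩ := h0
  obtain ⟨b2, b3, b5, b7⟩ := h1
  omega

theorem not_state1 {n : ℕ} (h : ∀ j ≤ 3, Good (fa (n + j))) : fa n % 5 ≠ 1 := by
  intro h1
  have g0 : Good (fa n) := h 0 (by norm_num)
  have g1 : Good (fa (n + 1)) := h 1 (by norm_num)
  have g2 : Good (fa (n + 2)) := h 2 (by norm_num)
  have g3 : Good (fa (n + 3)) := h 3 (by norm_num)
  have s1 := state1 g0 g1 h1
  have s2 := state1 (n := n + 1) g1 g2 s1.2
  have s3 := state1 (n := n + 2) g2 g3 s2.2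
  have h3 := fa_three n
  have t1 : 3 * fa (n + 1) + 1 = 4 * fa n := s1.1
  have t2 : 3 * fa (n + 2) + 1 = 4 * fa (n + 1) := s2.1
  have t3 : 3 * fa (n + 3) + 1 = 4 * fa (n + 2) := s3.1
  omega

/-- two steps `2 → 3 → 2` shift the residue modulo 7 by 4 -/
theorem double_step {n : ℕ} (h : ∀ j ≤ 5, Good (fa (n + j))) (h5 : fa n % 5 = 2)
    (h4 : fa (n + 1) % 5 ≠ 4) : fa (n + 2) % 5 = 2 ∧ fa (n + 2) % 7 = (fa n + 4) % 7 := by
  have g0 : Good (fa n) := h 0 (by norm_num)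
  have g1 : Good (fa (n + 1)) := h 1 (by norm_num)
  have g2 : Good (fa (n + 2)) := h 2 (by norm_num)
  have n1 : fa (n + 1) % 5 ≠ 1 := not_state1 (fun j hj => by
    have := h (1 + j) (by omega)
    rwa [← Nat.add_assoc] at this)
  have n2 : fa (n + 2) % 5 ≠ 1 := not_state1 (fun j hj => by
    have := h (2 + j) (by omega)
    rwa [← Nat.add_assoc] at this)
  have s0 := good_step g0 g1
  have s1 := good_step (n := n + 1) g1 g2
  have s1' : 3 * fa (n + 2) = 4 * fa (n + 1) + 1 ∨ 3 * fa (n + 2) + 1 = 4 * fa (n + 1) := s1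
  obtain ⟨a2, a3, a5, a7⟩ := g0
  obtain ⟨b2, b3, b5, b7⟩ := g1
  obtain ⟨c2, c3, c5, c7⟩ := g2
  omega

theorem persist4 {n k : ℕ} (h : ∀ j ≤ k, Good (fa (n + j))) (h4 : fa n % 5 = 4) :
    ∀ j ≤ k, fa (n + j) % 5 = 4 := by
  intro j
  induction j with
  | zero => intro _; simpa using h4
  | succ j ih =>
    intro hj
    have := ih (by omega)
    exact (state4 (h j (by omega)) (h (j + 1) hj) this).2

/-- starting from residue `2` modulo 5, a good window of length 16 reaches the residue 4 -/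
theorem reach_from_two {n : ℕ} (h : ∀ j ≤ 16, Good (fa (n + j))) (h5 : fa n % 5 = 2) :
    fa (n + 12) % 5 = 4 := by
  by_contra hne
  have no4 : ∀ j ≤ 12, fa (n + j) % 5 ≠ 4 := by
    intro j hj h4
    have := persist4 (n := n + j) (k := 12 - j) (fun i hi => by
      have := h (j + i) (by omega)
      rwa [← Nat.add_assoc] at this) h4 (12 - j) le_rfl
    rw [Nat.add_assoc, Nat.add_sub_cancel' hj] at this
    exact hne this
  have key : ∀ t ≤ 6, fa (n + 2 * t) % 5 = 2 ∧ fa (n + 2 * t) % 7 = (fa n + 4 * t) % 7 := by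
    intro t
    induction t with
    | zero => intro _; simpa using h5
    | succ t ih =>
      intro ht
      obtain ⟨i1, i2⟩ := ih (by omega)
      have := double_step (n := n + 2 * t) (fun j hj => by
        have := h (2 * t + j) (by omega)
        rwa [← Nat.add_assoc] at this) i1 (by
        have := no4 (2 * t + 1) (by omega)
        rwa [← Nat.add_assoc] at this)
      have e : n + 2 * t + 2 = n + 2 * (t + 1) := by ring
      rw [e] at this
      refine ⟨this.1, ?_⟩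
      rw [this.2]
      omega
  have c : ∀ t ≤ 6, (fa n + 4 * t) % 7 ≠ 0 := fun t ht => by
    rw [← (key t ht).2]
    exact (h (2 * t) (by omega)).2.2.2
  have c0 := c 0 (by norm_num)
  have c1 := c 1 (by norm_num)
  have c2 := c 2 (by norm_num)
  have c3 := c 3 (by norm_num)
  have c4 := c 4 (by norm_num)
  have c5 := c 5 (by norm_num)
  have c6 := c 6 (by norm_num)
  clear c key no4 hne h h5
  generalize fa n = x at *
  omega

theorem reach4 {n : ℕ} (h : ∀ j ≤ 17, Good (fa (n + j))) : fa (n + 13) % 5 = 4 := by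
  have g0 : Good (fa n) := h 0 (by norm_num)
  have g1 : Good (fa (n + 1)) := h 1 (by norm_num)
  have n0 : fa n % 5 ≠ 1 := not_state1 (fun j hj => h j (by omega))
  have n1 : fa (n + 1) % 5 ≠ 1 := not_state1 (fun j hj => by
    have := h (1 + j) (by omega)
    rwa [← Nat.add_assoc] at this)
  have s0 := good_step g0 g1
  have h0 : fa n % 5 = 2 ∨ fa n % 5 = 3 ∨ fa n % 5 = 4 := by
    obtain ⟨a2, a3, a5, a7⟩ := g0
    omega
  rcases h0 with h2 | h3 | h4
  · have := reach_from_two (n := n) (fun j hj => h j (by omega)) h2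
    exact (state4 (h 12 (by norm_num)) (h 13 (by norm_num)) this).2
  · have h2 : fa (n + 1) % 5 = 2 := by
      obtain ⟨a2, a3, a5, a7⟩ := g0
      obtain ⟨b2, b3, b5, b7⟩ := g1
      omega
    have := reach_from_two (n := n + 1) (fun j hj => by
      have := h (1 + j) (by omega)
      rwa [← Nat.add_assoc] at this) h2
    exact this
  · exact persist4 (n := n) (k := 13) (fun j hj => h j (by omega)) h4 13 le_rfl

/-- In a good window, after 13 steps the numbers `fa + 1` follow the exact geometric law. -/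
theorem run_law {n k : ℕ} (h : ∀ j ≤ 17 + k, Good (fa (n + j))) :
    ∀ i ≤ k + 4, 3 ^ i * (fa (n + 13 + i) + 1) = 4 ^ i * (fa (n + 13) + 1) := by
  have h4 := reach4 (n := n) (fun j hj => h j (by omega))
  have hg : ∀ j ≤ k + 4, Good (fa (n + 13 + j)) := fun j hj => by
    have := h (13 + j) (by omega)
    rwa [← Nat.add_assoc] at this
  have hp := persist4 (n := n + 13) (k := k + 4) hg h4
  intro i
  induction i with
  | zero => intro _; simp
  | succ i ih =>
    intro hi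
    have e := ih (by omega)
    have s := (state4 (hg i (by omega)) (hg (i + 1) hi) (hp i (by omega))).1
    have s' : 3 * (fa (n + 13 + (i + 1)) + 1) = 4 * (fa (n + 13 + i) + 1) := by
      have : n + 13 + i + 1 = n + 13 + (i + 1) := by ring
      rw [← this]; omega
    calc 3 ^ (i + 1) * (fa (n + 13 + (i + 1)) + 1)
        = 3 ^ i * (3 * (fa (n + 13 + (i + 1)) + 1)) := by ring
      _ = 3 ^ i * (4 * (fa (n + 13 + i) + 1)) := by rw [s']
      _ = 4 * (3 ^ i * (fa (n + 13 + i) + 1)) := by ring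
      _ = 4 * (4 ^ i * (fa (n + 13) + 1)) := by rw [e]
      _ = 4 ^ (i + 1) * (fa (n + 13) + 1) := by ring

/-- The set of indices `1 ≤ n ≤ N` with composite `⌊(4/3)^n⌋`. -/
noncomputable def compIdx (N : ℕ) : Finset ℕ :=
  (Finset.Icc 1 N).filter
    (fun n : ℕ => 1 < ⌊((4 : ℝ) / 3) ^ n⌋₊ ∧ ¬ (⌊((4 : ℝ) / 3) ^ n⌋₊).Prime)

theorem mem_compIdx {N n : ℕ} : n ∈ compIdx N ↔ (1 ≤ n ∧ n ≤ N) ∧ Comp (fa n) := by
  unfold compIdx Comp
  rw [Finset.mem_filter, Finset.mem_Icc, floor_eq_fa]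

theorem fa_mono_one (n : ℕ) : fa n ≤ fa (n + 1) := by
  have := fa_step_down n
  omega

theorem fa_mono {m n : ℕ} (h : m ≤ n) : fa m ≤ fa n := monotone_nat_of_le_succ fa_mono_one h

theorem fa_eight : 7 < fa 8 := by
  unfold fa
  norm_num

theorem seven_lt {n : ℕ} (h : 8 ≤ n) : 7 < fa n := lt_of_lt_of_le fa_eight (fa_mono h)

theorem fa_le (n : ℕ) : (fa n : ℝ) ≤ (4 / 3 : ℝ) ^ n := by
  have h := fa_mul_le n
  have h' : ((3 : ℝ) ^ n) * fa n ≤ 4 ^ n := by exact_mod_cast h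
  rw [div_pow, le_div_iff₀ (by positivity)]
  linarith [mul_comm ((3 : ℝ) ^ n) (fa n : ℝ)]

theorem lt_fa (n : ℕ) : (4 / 3 : ℝ) ^ n < fa n + 1 := by
  have h := lt_mul_fa n
  have h' : (4 : ℝ) ^ n < (3 : ℝ) ^ n * (fa n + 1) := by exact_mod_cast h
  rw [div_pow, div_lt_iff₀ (by positivity)]
  linarith [mul_comm ((3 : ℝ) ^ n) ((fa n : ℝ) + 1)]

end Pool.Agent.helper87
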