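import Mathlib

/-! Level norms on `P(2^m)` for the construction of a Tukey-top ultrafilter failing `◇⁻`. -/

namespace Pool.Agent.helper87.TT

open Finset

/-- the points of level `m`: subsets of `{0, …, m-1}` -/
def Pt (m : ℕ) : Finset (Finset ℕ) := (range m).powerset

theorem card_Pt (m : ℕ) : (Pt m).card = 2 ^ m := by
  simp [Pt]

/-- the sets `F` of points at level `m` -/
def Fm (m : ℕ) : Finset (Finset (Finset ℕ)) := (Pt m).powerset

theorem card_Fm (m : ℕ) : (Fm m).card = 2 ^ 2 ^ m := by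
  simp [Fm, card_Pt]

/-- the denominators -/
def D (n : ℕ) : ℕ := n * 2 ^ (n + 1)

/-- `Test n m k X J`: a `k`-test at level `m` for the column `n`. -/
def Test (n m k : ℕ) (X : Finset (Finset ℕ)) (J : Finset (Finset (Finset ℕ))) : Prop :=
  X ⊆ Pt m ∧ X.card ≤ k ∧ J.card ≤ k ∧ ∀ I ∈ J, I ⊆ Pt m ∧ 2 * n ≤ I.card

/-- `F` passes the test `(X, J)` -/
def Passes (X : Finset (Finset ℕ)) (J : Finset (Finset (Finset ℕ))) (F : Finset (Finset ℕ)) :
    Prop := X ⊆ F ∧ ∀ I ∈ J, ¬ I ⊆ F

open Classical in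
/-- `S ⊆ P(2^m)` is `k`-large for the column `n`. -/
def L (n m k : ℕ) (S : Finset (Finset (Finset ℕ))) : Prop :=
  ∀ X J, Test n m k X J → k * 2 ^ 2 ^ m ≤ D n * (S.filter (Passes X J)).card

theorem L.mono {n m k k' : ℕ} {S S' : Finset (Finset (Finset ℕ))} (h : L n m k S)
    (hk : k' ≤ k) (hS : S ⊆ S') : L n m k' S' := by
  classical
  intro X J hT
  have h1 := h X J ⟨hT.1, hT.2.1.trans hk, hT.2.2.1.trans hk, hT.2.2.2⟩
  calc k' * 2 ^ 2 ^ m ≤ k * 2 ^ 2 ^ m := Nat.mul_le_mul_right _ hk
    _ ≤ D n * (S.filter (Passes X J)).card := h1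
    _ ≤ D n * (S'.filter (Passes X J)).card :=
      Nat.mul_le_mul_left _ (card_le_card (filter_subset_filter _ hS))

theorem L.union {n m k : ℕ} {S S' : Finset (Finset (Finset ℕ))} (h : L n m (2 * k) (S ∪ S')) :
    L n m k S ∨ L n m k S' := by
  classical
  by_contra hcon
  rw [not_or] at hcon
  obtain ⟨h1, h2⟩ := hcon
  unfold L at h1 h2
  push Not at h1 h2
  obtain ⟨X, J, hT, hX⟩ := h1
  obtain ⟨X', J', hT', hX'⟩ := h2
  have hT'' : Test n m (2 * k) (X ∪ X') (J ∪ J') := by
    refine ⟨union_subset hT.1 hT'.1, ?_, ?_, ?_⟩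
    · exact (card_union_le _ _).trans (by have := hT.2.1; have := hT'.2.1; omega)
    · exact (card_union_le _ _).trans (by have := hT.2.2.1; have := hT'.2.2.1; omega)
    · intro I hI
      rcases mem_union.1 hI with h | h
      · exact hT.2.2.2 I h
      · exact hT'.2.2.2 I h
  have h3 := h _ _ hT''
  have h4 : ((S ∪ S').filter (Passes (X ∪ X') (J ∪ J'))) ⊆
      S.filter (Passes X J) ∪ S'.filter (Passes X' J') := by
    intro F hF
    rw [mem_filter, mem_union] at hF
    obtain ⟨hF1, hF2, hF3⟩ := hF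
    rw [mem_union, mem_filter, mem_filter]
    rcases hF1 with hF1 | hF1
    · left
      exact ⟨hF1, subset_union_left.trans hF2, fun I hI => hF3 I (mem_union_left _ hI)⟩
    · right
      exact ⟨hF1, subset_union_right.trans hF2, fun I hI => hF3 I (mem_union_right _ hI)⟩
  have h5 := (card_le_card h4).trans (card_union_le _ _)
  have h6 : D n * ((S ∪ S').filter (Passes (X ∪ X') (J ∪ J'))).card ≤
      D n * (S.filter (Passes X J)).card + D n * (S'.filter (Passes X' J')).card := by
    rw [← mul_add]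
    exact Nat.mul_le_mul_left _ h5
  have h7 : 2 * k * 2 ^ 2 ^ m = k * 2 ^ 2 ^ m + k * 2 ^ 2 ^ m := by ring
  omega

/-- the number of `F` between `X` and the set of all points -/
theorem card_filter_supset {m : ℕ} {X : Finset (Finset ℕ)} (hX : X ⊆ Pt m) :
    ((Fm m).filter (fun F => X ⊆ F)).card = 2 ^ (2 ^ m - X.card) := by
  have h : (Fm m).filter (fun F => X ⊆ F) = Finset.Icc X (Pt m) := by
    ext F
    simp only [Fm, mem_filter, mem_powerset, mem_Icc]
    tauto
  rw [h, Finset.card_Icc_finset hX, card_Pt]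

theorem two_mul_le_two_pow {n : ℕ} (hn : 1 ≤ n) : 2 * n ≤ 2 ^ n := by
  induction n, hn using Nat.le_induction with
  | base => norm_num
  | succ n hn ih =>
    rw [pow_succ]
    omega

theorem L_full {n m : ℕ} (hn : 1 ≤ n) : L n m n (Fm m) := by
  classical
  intro X J hT
  obtain ⟨hX, hXc, hJc, hJ⟩ := hT
  by_cases hm : 2 ^ m < 2 * n
  · -- no sets `I`
    have hJe : J = ∅ := by
      rw [eq_empty_iff_forall_notMem]
      intro I hI
      have h1 := hJ I hI
      have h2 := card_le_card h1.1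
      rw [card_Pt] at h2
      omega
    subst hJe
    have h1 : (Fm m).filter (Passes X ∅) = (Fm m).filter (fun F => X ⊆ F) := by
      apply filter_congr
      intro F _
      simp [Passes]
    rw [h1, card_filter_supset hX]
    have hXc' : X.card ≤ 2 ^ m := by rw [← card_Pt]; exact card_le_card hX
    have h2 : 2 ^ 2 ^ m = 2 ^ X.card * 2 ^ (2 ^ m - X.card) := by
      rw [← pow_add]; congr 1; omega
    rw [h2, D]
    have h3 : 2 ^ X.card ≤ 2 ^ (n + 1) := Nat.pow_le_pow_right (by norm_num) (by omega)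
    calc n * (2 ^ X.card * 2 ^ (2 ^ m - X.card)) ≤ n * (2 ^ (n + 1) * 2 ^ (2 ^ m - X.card)) := by
          gcongr
      _ = _ := by ring
  · push Not at hm
    have hXc' : X.card ≤ 2 ^ m := by rw [← card_Pt]; exact card_le_card hX
    -- number of `F ⊇ X` minus number of those containing some `I`
    have h1 : (Fm m).filter (fun F => X ⊆ F) ⊆ (Fm m).filter (Passes X J) ∪
        J.biUnion (fun I => (Fm m).filter (fun F => I ⊆ F)) := by
      intro F hF
      rw [mem_filter] at hF
      rw [mem_union, mem_filter, mem_biUnion]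
      by_cases h : ∃ I ∈ J, I ⊆ F
      · right
        obtain ⟨I, hI, hIF⟩ := h
        exact ⟨I, hI, mem_filter.2 ⟨hF.1, hIF⟩⟩
      · left
        push Not at h
        exact ⟨hF.1, hF.2, h⟩
    have h2 : (J.biUnion (fun I => (Fm m).filter (fun F => I ⊆ F))).card ≤
        n * 2 ^ (2 ^ m - 2 * n) := by
      calc (J.biUnion (fun I => (Fm m).filter (fun F => I ⊆ F))).card
          ≤ ∑ I ∈ J, ((Fm m).filter (fun F => I ⊆ F)).card := card_biUnion_le
        _ ≤ ∑ _I ∈ J, 2 ^ (2 ^ m - 2 * n) := by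
            apply sum_le_sum
            intro I hI
            rw [card_filter_supset (hJ I hI).1]
            have := (hJ I hI).2
            exact Nat.pow_le_pow_right (by norm_num) (by omega)
        _ = J.card * 2 ^ (2 ^ m - 2 * n) := by simp
        _ ≤ _ := Nat.mul_le_mul_right _ hJc
    have h3 := (card_le_card h1).trans (card_union_le _ _)
    rw [card_filter_supset hX] at h3
    -- arithmetic
    set a := 2 ^ (2 ^ m - 2 * n) with ha
    have h4 : 2 ^ (2 ^ m - X.card) ≥ 2 ^ n * a := by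
      rw [ha, ← pow_add]
      exact Nat.pow_le_pow_right (by norm_num) (by omega)
    have h5 := two_mul_le_two_pow hn
    have h6 : 2 ^ 2 ^ m = 2 ^ n * (2 ^ n * a) := by
      rw [ha, ← pow_add, ← pow_add]; congr 1; omega
    have h7 : 2 ^ n * a ≤ 2 * ((Fm m).filter (Passes X J)).card := by
      have : 2 * n * a ≤ 2 ^ n * a := Nat.mul_le_mul_right _ h5
      have h8 : 2 * n * a = 2 * (n * a) := by ring
      omega
    rw [h6, D]
    calc n * (2 ^ n * (2 ^ n * a)) ≤ n * (2 ^ n * (2 * ((Fm m).filter (Passes X J)).card)) := by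
          gcongr
      _ = _ := by ring

/-- a `1`-large set has many elements -/
theorem L.card_le {n m : ℕ} {S : Finset (Finset (Finset ℕ))} (h : L n m 1 S) :
    2 ^ 2 ^ m ≤ D n * S.card := by
  classical
  have h1 := h ∅ ∅ ⟨by simp, by simp, by simp, by simp⟩
  rw [one_mul] at h1
  exact h1.trans (Nat.mul_le_mul_left _ (card_filter_le _ _))

theorem L.exists_mem {n m : ℕ} {S : Finset (Finset (Finset ℕ))} (h : L n m 1 S)
    {X : Finset (Finset ℕ)} {J : Finset (Finset (Finset ℕ))} (hT : Test n m 1 X J) :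
    ∃ F ∈ S, Passes X J F := by
  classical
  have h1 := h X J hT
  by_contra hcon
  push Not at hcon
  have : S.filter (Passes X J) = ∅ := by
    rw [eq_empty_iff_forall_notMem]
    intro F hF
    rw [mem_filter] at hF
    exact hcon F hF.1 hF.2
  rw [this, card_empty, mul_zero, one_mul] at h1
  have : 0 < 2 ^ 2 ^ m := by positivity
  omega

end Pool.Agent.helper87.TT
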