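import Mathlib
import Pool.Agent.helper87.TTLevel

/-! Columns: positivity with respect to the limsup of the level norms. -/

namespace Pool.Agent.helper87.TT

open Finset Filter

/-- points of a column -/
abbrev Cell := ℕ × Finset (Finset ℕ)

open Classical in
/-- level `m` of a column -/
noncomputable def sl (C : Set Cell) (m : ℕ) : Finset (Finset (Finset ℕ)) :=
  (Fm m).filter (fun F => (m, F) ∈ C)

theorem mem_sl {C : Set Cell} {m : ℕ} {F : Finset (Finset ℕ)} :
    F ∈ sl C m ↔ F ∈ Fm m ∧ (m, F) ∈ C := by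
  classical
  simp [sl]

theorem sl_mono {C C' : Set Cell} (h : C ⊆ C') (m : ℕ) : sl C m ⊆ sl C' m := by
  intro F hF
  rw [mem_sl] at *
  exact ⟨hF.1, h hF.2⟩

theorem sl_union (C C' : Set Cell) (m : ℕ) : sl (C ∪ C') m = sl C m ∪ sl C' m := by
  ext F
  rw [mem_union, mem_sl, mem_sl, mem_sl, Set.mem_union]
  tauto

/-- a column set is `k`-big -/
def Big (n k : ℕ) (C : Set Cell) : Prop := ∃ᶠ m in atTop, L n m k (sl C m)

theorem Big.mono {n k k' : ℕ} {C C' : Set Cell} (h : Big n k C) (hk : k' ≤ k) (hC : C ⊆ C') :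
    Big n k' C' :=
  Frequently.mono h (fun m hm => hm.mono hk (sl_mono hC m))

theorem Big.union {n k : ℕ} {C C' : Set Cell} (h : Big n (2 * k) (C ∪ C')) :
    Big n k C ∨ Big n k C' := by
  rw [Big, Big, ← frequently_or_distrib]
  refine Frequently.mono h (fun m hm => ?_)
  rw [sl_union] at hm
  exact hm.union

theorem big_univ {n : ℕ} (hn : 1 ≤ n) : Big n n Set.univ := by
  refine Eventually.frequently (Eventually.of_forall (fun m => ?_))
  have : sl Set.univ m = Fm m := by
    ext F; simp [mem_sl]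
  rw [this]
  exact L_full hn

/-- `g` is bounded on `C` -/
def Bd (g : Cell → ℕ) (C : Set Cell) : Prop := ∃ v, ∀ p ∈ C, g p ≤ v

/-- `g` tends to infinity on `C` -/
def Un (g : Cell → ℕ) (C : Set Cell) : Prop :=
  ∀ v, ∃ m0, ∀ m, m0 ≤ m → ∀ F, (m, F) ∈ C → v < g (m, F)

theorem Bd.mono {g : Cell → ℕ} {C C' : Set Cell} (h : Bd g C') (hC : C ⊆ C') : Bd g C := by
  obtain ⟨v, hv⟩ := h
  exact ⟨v, fun p hp => hv p (hC hp)⟩

theorem Un.mono {g : Cell → ℕ} {C C' : Set Cell} (h : Un g C') (hC : C ⊆ C') : Un g C := by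
  intro v
  obtain ⟨m0, hm0⟩ := h v
  exact ⟨m0, fun m hm F hF => hm0 m hm F (hC hF)⟩

theorem dichotomy {n k : ℕ} {C : Set Cell} (g : Cell → ℕ) (h : Big n (2 * k) C) :
    ∃ C' ⊆ C, Big n k C' ∧ (Bd g C' ∨ Un g C') := by
  by_cases hb : ∃ v, Big n k (C ∩ {p | g p ≤ v})
  · obtain ⟨v, hv⟩ := hb
    exact ⟨_, Set.inter_subset_left, hv, Or.inl ⟨v, fun p hp => hp.2⟩⟩
  · push Not at hb
    have h1 : ∀ v, ∃ᶠ m in atTop, L n m k (sl (C ∩ {p | v < g p}) m) := by
      intro v
      have h2 : ∀ᶠ m in atTop, ¬ L n m k (sl (C ∩ {p | g p ≤ v}) m) := by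
        have := hb v
        rwa [Big, not_frequently] at this
      refine (h.and_eventually h2).mono ?_
      rintro m ⟨hm1, hm2⟩
      have h3 : C = (C ∩ {p | g p ≤ v}) ∪ (C ∩ {p | v < g p}) := by
        ext p
        simp only [Set.mem_union, Set.mem_inter_iff, Set.mem_ofPred_eq]
        rcases le_or_gt (g p) v with h | h
        · simp [h, not_lt.2 h]
        · simp [h, not_le.2 h]
      rw [h3, sl_union] at hm1
      exact hm1.union.resolve_left hm2
    obtain ⟨ψ, hψ, hψL⟩ := extraction_forall_of_frequently h1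
    refine ⟨{p | p ∈ C ∧ ∃ v, p.1 = ψ v ∧ v < g p}, fun p hp => hp.1, ?_, Or.inr ?_⟩
    · have h4 : ∀ v, L n (ψ v) k (sl {p | p ∈ C ∧ ∃ v, p.1 = ψ v ∧ v < g p} (ψ v)) := by
        intro v
        refine (hψL v).mono le_rfl ?_
        intro F hF
        rw [mem_sl] at *
        exact ⟨hF.1, hF.2.1, v, rfl, hF.2.2⟩
      exact hψ.tendsto_atTop.frequently (Frequently.of_forall h4)
    · intro v
      refine ⟨ψ v, ?_⟩
      rintro m hm F ⟨_, v', hv', hlt⟩
      simp only at hv'
      rw [hv'] at hm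
      have := hψ.le_iff_le.1 hm
      omega

/-- deleting finitely many levels -/
theorem Big.of_eventually {n k : ℕ} {C C' : Set Cell} (h : Big n k C)
    (hC : ∀ᶠ m in atTop, ∀ F, (m, F) ∈ C → (m, F) ∈ C') : Big n k C' := by
  refine (h.and_eventually hC).mono ?_
  rintro m ⟨h1, h2⟩
  refine h1.mono le_rfl ?_
  intro F hF
  rw [mem_sl] at *
  exact ⟨hF.1, h2 F hF.2⟩

/-- the trace of a set of integers on `{0, …, m-1}` -/
noncomputable def res (X : Set ℕ) (m : ℕ) : Finset ℕ :=
  open Classical in (range m).filter (fun i => i ∈ X)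

theorem mem_res {X : Set ℕ} {m i : ℕ} : i ∈ res X m ↔ i < m ∧ i ∈ X := by
  classical
  simp [res]

theorem res_mem_Pt (X : Set ℕ) (m : ℕ) : res X m ∈ Pt m := by
  rw [Pt, mem_powerset]
  intro i hi
  rw [mem_res] at hi
  exact mem_range.2 hi.1

theorem res_inter_range {X : Set ℕ} {m r : ℕ} (h : r ≤ m) : res X m ∩ range r = res X r := by
  ext i
  rw [mem_inter, mem_res, mem_res, mem_range]
  constructor
  · rintro ⟨⟨_, h1⟩, h2⟩; exact ⟨h2, h1⟩
  · rintro ⟨h1, h2⟩; exact ⟨⟨by omega, h2⟩, h1⟩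

theorem res_eventually_ne {X Y : Set ℕ} (h : X ≠ Y) : ∃ m0, ∀ m, m0 ≤ m → res X m ≠ res Y m := by
  have : ∃ i, ¬ (i ∈ X ↔ i ∈ Y) := by
    by_contra hcon
    push Not at hcon
    exact h (Set.ext hcon)
  obtain ⟨i, hi⟩ := this
  refine ⟨i + 1, fun m hm heq => hi ?_⟩
  have h1 : i ∈ res X m ↔ i ∈ res Y m := by rw [heq]
  rw [mem_res, mem_res] at h1
  have h2 : i < m := by omega
  simpa [h2] using h1

theorem exists_injOn_res (T : Finset (Set ℕ)) : ∃ m0, ∀ m, m0 ≤ m →
    Set.InjOn (fun X => res X m) (T : Set (Set ℕ)) := by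
  classical
  choose! m0 hm0 using fun (p : Set ℕ × Set ℕ) (h : p.1 ≠ p.2) => res_eventually_ne h
  refine ⟨(T ×ˢ T).sup m0, ?_⟩
  intro m hm X hX Y hY heq
  by_contra hne
  refine hm0 (X, Y) hne m ?_ heq
  refine le_trans ?_ hm
  exact Finset.le_sup (f := m0) (Finset.mem_product.2 ⟨hX, hY⟩)

open Classical in
/-- heavy strings of length `r` at level `m` -/
noncomputable def heavy (n : ℕ) (C : Set Cell) (A : Cell → Finset (Finset ℕ)) (m r : ℕ) :
    Finset (Finset ℕ) :=
  (Pt r).filter (fun s => 2 ^ 2 ^ m ≤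
    D n * ((sl C m).filter (fun F => ∃ a ∈ A (m, F), a ∩ range r = s)).card)

theorem card_heavy_le {n c : ℕ} {C : Set Cell} {A : Cell → Finset (Finset ℕ)}
    (hA : ∀ p ∈ C, (A p).card ≤ c) (m r : ℕ) : (heavy n C A m r).card ≤ D n * c := by
  classical
  have h1 : (heavy n C A m r).card * 2 ^ 2 ^ m ≤ D n * c * 2 ^ 2 ^ m := by
    calc (heavy n C A m r).card * 2 ^ 2 ^ m = ∑ _s ∈ heavy n C A m r, 2 ^ 2 ^ m := by simp
      _ ≤ ∑ s ∈ heavy n C A m r,
          D n * ((sl C m).filter (fun F => ∃ a ∈ A (m, F), a ∩ range r = s)).card := by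
          apply sum_le_sum
          intro s hs
          exact (mem_filter.1 hs).2
      _ = D n * ∑ s ∈ heavy n C A m r,
          ((sl C m).filter (fun F => ∃ a ∈ A (m, F), a ∩ range r = s)).card := by
          rw [mul_sum]
      _ ≤ D n * ∑ F ∈ sl C m, c := by
          gcongr
          have : ∀ s, ((sl C m).filter (fun F => ∃ a ∈ A (m, F), a ∩ range r = s)).card =
              ∑ F ∈ sl C m, if ∃ a ∈ A (m, F), a ∩ range r = s then 1 else 0 := by
            intro s
            rw [card_filter]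
          simp_rw [this]
          rw [sum_comm]
          apply sum_le_sum
          intro F hF
          rw [← card_filter]
          have h2 : (heavy n C A m r).filter (fun s => ∃ a ∈ A (m, F), a ∩ range r = s) ⊆
              (A (m, F)).image (fun a => a ∩ range r) := by
            intro s hs
            obtain ⟨_, a, ha, rfl⟩ := mem_filter.1 hs
            exact mem_image_of_mem _ ha
          exact (card_le_card h2).trans (card_image_le.trans (hA _ (mem_sl.1 hF).2))
      _ = D n * c * (sl C m).card := by simp; ring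
      _ ≤ D n * c * 2 ^ 2 ^ m := by
          gcongr
          rw [← card_Fm]
          classical
          exact card_filter_le _ _
  exact Nat.le_of_mul_le_mul_right h1 (by positivity)

/-- The thinning lemma: the sets captured on many cells of the column are finitely many. -/
theorem thin {n k c : ℕ} {C : Set Cell} {f : Cell → ℕ} {A : Cell → Finset (Finset ℕ)}
    (h : Big n k C) (hf : Un f C) (hA : ∀ p ∈ C, (A p).card ≤ c) :
    ∃ C' ⊆ C, Big n k C' ∧ ∃ Q : Set (Set ℕ), Q.Finite ∧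
      ∀ X ∉ Q, ¬ Big n 1 (C' ∩ {p | res X (f p) ∈ A p}) := by
  classical
  -- an ultrafilter on the good levels
  set M : Set ℕ := {m | L n m k (sl C m)} with hM
  have hfreq : (atTop ⊓ 𝓟 M).NeBot := by
    rw [← frequently_mem_iff_neBot]; exact h
  obtain ⟨W, hW⟩ := Ultrafilter.exists_le (atTop ⊓ 𝓟 M)
  have hWtop : (W : Filter ℕ) ≤ atTop := hW.trans inf_le_left
  have hWM : M ∈ W := (hW.trans inf_le_right) (mem_principal_self M)
  -- stabilised heavy sets
  have hst : ∀ r, ∃ H : Finset (Finset ℕ), {m | heavy n C A m r = H} ∈ W := by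
    intro r
    have h1 : ∀ m, heavy n C A m r ∈ (Pt r).powerset := fun m =>
      mem_powerset.2 (filter_subset _ _)
    have h2 : (⋃ H ∈ ((Pt r).powerset : Set (Finset (Finset ℕ))), {m | heavy n C A m r = H}) ∈ W := by
      have : (⋃ H ∈ ((Pt r).powerset : Set (Finset (Finset ℕ))), {m | heavy n C A m r = H}) =
          Set.univ := by
        ext m
        simp only [Set.mem_iUnion, Set.mem_univ, iff_true]
        exact ⟨_, h1 m, rfl⟩
      rw [this]
      exact univ_mem
    obtain ⟨H, -, hH⟩ := (Ultrafilter.finite_biUnion_mem_iff (finite_toSet _)).1 h2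
    exact ⟨H, hH⟩
  choose H hH using hst
  -- choose levels
  have hfreq2 : ∀ j : ℕ, ∃ᶠ m in atTop, (m ∈ M ∧ ∀ r ≤ j, heavy n C A m r = H r) := by
    intro j
    have h1 : {m | m ∈ M ∧ ∀ r ≤ j, heavy n C A m r = H r} ∈ W := by
      have h2 : (⋂ r ∈ (Set.Iic j), {m | heavy n C A m r = H r}) ∈ W :=
        (biInter_mem (Set.finite_Iic j)).2 (fun r _ => hH r)
      filter_upwards [hWM, h2] with m hm1 hm2
      refine ⟨hm1, fun r hr => ?_⟩
      simp only [Set.mem_iInter] at hm2
      exact hm2 r hr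
    have h3 : ∃ᶠ m in (W : Filter ℕ), (m ∈ M ∧ ∀ r ≤ j, heavy n C A m r = H r) :=
      Eventually.frequently h1
    exact h3.filter_mono hWtop
  obtain ⟨ψ, hψ, hψM⟩ := extraction_forall_of_frequently hfreq2
  refine ⟨{p | p ∈ C ∧ ∃ j, p.1 = ψ j}, fun p hp => hp.1, ?_,
    {X | ∀ r, res X r ∈ H r}, ?_, ?_⟩
  · have h4 : ∀ j, L n (ψ j) k (sl {p | p ∈ C ∧ ∃ j, p.1 = ψ j} (ψ j)) := by
      intro j
      refine (hψM j).1.mono le_rfl ?_
      intro F hF
      rw [mem_sl] at *
      exact ⟨hF.1, hF.2, j, rfl⟩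
    exact hψ.tendsto_atTop.frequently (Frequently.of_forall h4)
  · -- finiteness
    by_contra hinf
    obtain ⟨T, hT, hTcard⟩ := (Set.not_finite.1 hinf).exists_subset_card_eq (D n * c + 1)
    obtain ⟨m0, hm0⟩ := exists_injOn_res T
    have h5 : (T.image (fun X => res X m0)).card = D n * c + 1 := by
      rw [card_image_of_injOn (hm0 m0 le_rfl), hTcard]
    have h6 : T.image (fun X => res X m0) ⊆ H m0 := by
      intro s hs
      obtain ⟨X, hX, rfl⟩ := mem_image.1 hs
      exact hT hX m0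
    have h7 : (H m0).card ≤ D n * c := by
      rw [← (hψM m0).2 m0 le_rfl]
      exact card_heavy_le hA _ _
    have := card_le_card h6
    omega
  · intro X hX hbig
    simp only [Set.mem_ofPred_eq, not_forall] at hX
    obtain ⟨r, hr⟩ := hX
    obtain ⟨m0, hm0⟩ := hf r
    obtain ⟨m, hm, hmL⟩ := (frequently_atTop.1 hbig) (max m0 (ψ r))
    -- the level m is one of the ψ j
    have hcard := hmL.card_le
    have hpos : 0 < 2 ^ 2 ^ m := by positivity
    have hne : (sl ({p | p ∈ C ∧ ∃ j, p.1 = ψ j} ∩ {p | res X (f p) ∈ A p}) m).Nonempty := by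
      rw [nonempty_iff_ne_empty]
      intro he
      rw [he, card_empty, mul_zero] at hcard
      omega
    obtain ⟨F0, hF0⟩ := hne
    obtain ⟨-, ⟨-, j, hj⟩, -⟩ := mem_sl.1 hF0
    simp only at hj
    have hjr : r ≤ j := by
      have : ψ r ≤ ψ j := by rw [← hj]; exact (le_max_right _ _).trans hm
      exact hψ.le_iff_le.1 this
    have hheavy : heavy n C A m r = H r := by
      rw [hj]; exact (hψM j).2 r hjr
    have hnot : res X r ∉ heavy n C A m r := by rw [hheavy]; exact hr
    apply hnot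
    rw [heavy, mem_filter]
    refine ⟨res_mem_Pt X r, ?_⟩
    refine hcard.trans (Nat.mul_le_mul_left _ (card_le_card ?_))
    intro F hF
    obtain ⟨hF1, ⟨hF2, -⟩, hF3⟩ := mem_sl.1 hF
    rw [mem_filter, mem_sl]
    refine ⟨⟨hF1, hF2⟩, res X (f (m, F)), hF3, ?_⟩
    apply res_inter_range
    exact (hm0 m ((le_max_left _ _).trans hm) F hF2).le

end Pool.Agent.helper87.TT
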