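import Mathlib
import Pool.Agent.helper87.TTColumn

/-! Positive sets, fusion and the density theorem. -/

namespace Pool.Agent.helper87.TT

open Finset Filter

/-- the underlying countable set: column, level, set of points -/
abbrev Om := ℕ × Cell

/-- the column number `n` of a set -/
def cl (E : Set Om) (n : ℕ) : Set Cell := {p | (n, p) ∈ E}

/-- positive sets -/
def Pos (E : Set Om) : Prop := ∀ k, ∃ᶠ n in atTop, Big n k (cl E n)

/-- inclusion up to finitely many columns -/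
def Sub (E B : Set Om) : Prop := ∀ᶠ n in atTop, cl E n ⊆ cl B n

theorem Sub.trans {E B C : Set Om} (h1 : Sub E B) (h2 : Sub B C) : Sub E C := by
  filter_upwards [h1, h2] with n a b using a.trans b

theorem Sub.refl (E : Set Om) : Sub E E := Eventually.of_forall (fun _ => subset_rfl)

theorem sub_of_subset {E B : Set Om} (h : E ⊆ B) : Sub E B :=
  Eventually.of_forall (fun _ _ hp => h hp)

theorem Sub.inter {E B C : Set Om} (h1 : Sub E B) (h2 : Sub E C) : Sub E (B ∩ C) := by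
  filter_upwards [h1, h2] with n a b
  intro p hp
  exact ⟨a hp, b hp⟩

theorem Pos.of_sub {E B : Set Om} (h : Pos E) (hs : Sub E B) : Pos B := by
  intro k
  exact ((h k).and_eventually hs).mono (fun n hn => hn.1.mono le_rfl hn.2)

theorem Pos.mono {E B : Set Om} (h : Pos E) (hs : E ⊆ B) : Pos B := h.of_sub (sub_of_subset hs)

theorem not_pos_empty : ¬ Pos ∅ := by
  intro h
  obtain ⟨n, hn⟩ := (h 1).exists
  obtain ⟨m, hm⟩ := hn.exists
  have h1 := hm.card_le
  have h2 : sl (cl ∅ n) m = ∅ := by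
    rw [eq_empty_iff_forall_notMem]
    intro F hF
    exact (mem_sl.1 hF).2
  rw [h2, card_empty, mul_zero] at h1
  have : 0 < 2 ^ 2 ^ m := by positivity
  omega

theorem Pos.union {E B : Set Om} (h : Pos (E ∪ B)) : Pos E ∨ Pos B := by
  by_contra hcon
  rw [not_or] at hcon
  obtain ⟨h1, h2⟩ := hcon
  unfold Pos at h1 h2
  push Not at h1 h2
  obtain ⟨k, hk⟩ := h1
  obtain ⟨k', hk'⟩ := h2
  obtain ⟨n, ⟨hn1, hn2⟩, hn3⟩ := ((h (2 * max k k')).and_eventually hk).and_eventually hk' |>.exists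
  have h3 : cl (E ∪ B) n = cl E n ∪ cl B n := rfl
  rw [h3] at hn1
  rcases hn1.union with h | h
  · exact hn2 (h.mono (le_max_left _ _) subset_rfl)
  · exact hn3 (h.mono (le_max_right _ _) subset_rfl)

theorem pos_univ : Pos Set.univ := by
  intro k
  refine Eventually.frequently ?_
  filter_upwards [eventually_ge_atTop (max k 1)] with n hn
  exact (big_univ ((le_max_right _ _).trans hn)).mono ((le_max_left _ _).trans hn) subset_rfl

/-- assembling columns -/
def asm (φ : ℕ → ℕ) (C : ℕ → Set Cell) : Set Om := {q | ∃ i, q.1 = φ i ∧ q.2 ∈ C i}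

theorem cl_asm {φ : ℕ → ℕ} (hφ : StrictMono φ) (C : ℕ → Set Cell) (i : ℕ) :
    cl (asm φ C) (φ i) = C i := by
  ext p
  constructor
  · rintro ⟨j, hj, hp⟩
    have : i = j := hφ.injective hj
    subst this
    exact hp
  · intro hp
    exact ⟨i, rfl, hp⟩

theorem pos_asm {φ : ℕ → ℕ} (hφ : StrictMono φ) {C : ℕ → Set Cell}
    (h : ∀ i, Big (φ i) i (C i)) : Pos (asm φ C) := by
  intro k
  refine hφ.tendsto_atTop.frequently ?_
  refine Eventually.frequently ?_
  filter_upwards [eventually_ge_atTop k] with i hi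
  rw [cl_asm hφ]
  exact (h i).mono hi subset_rfl

theorem asm_subset {φ : ℕ → ℕ} {C : ℕ → Set Cell} {E : Set Om} (h : ∀ i, C i ⊆ cl E (φ i)) :
    asm φ C ⊆ E := by
  rintro ⟨n, p⟩ ⟨i, hi, hp⟩
  simp only at hi
  subst hi
  exact h i hp

/-- selection principle -/
theorem select {R : ℕ → ℕ → Set Cell → Prop}
    (h : ∀ k, ∃ᶠ n in atTop, ∃ C, Big n k C ∧ R k n C) :
    ∃ (φ : ℕ → ℕ) (C : ℕ → Set Cell), StrictMono φ ∧ ∀ i, Big (φ i) i (C i) ∧ R i (φ i) (C i) := by
  obtain ⟨φ, hφ, h1⟩ := extraction_forall_of_frequently h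
  choose C hC using h1
  exact ⟨φ, C, hφ, hC⟩

/-- pseudo-intersections -/
theorem exists_pseudo {B : ℕ → Set Om} (h : ∀ i, Pos (⋂ j ≤ i, B j)) :
    ∃ E, Pos E ∧ ∀ i, Sub E (B i) := by
  have h1 : ∀ k, ∃ᶠ n in atTop, ∃ C, Big n k C ∧ C ⊆ cl (⋂ j ≤ k, B j) n := by
    intro k
    exact (h k k).mono (fun n hn => ⟨_, hn, subset_rfl⟩)
  obtain ⟨φ, C, hφ, hC⟩ := select h1
  refine ⟨asm φ C, pos_asm hφ (fun i => (hC i).1), ?_⟩
  intro i
  filter_upwards [eventually_ge_atTop (φ i)] with n hn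
  rintro p ⟨j, hj, hp⟩
  simp only at hj
  rw [hj] at hn
  have hij : i ≤ j := hφ.le_iff_le.1 hn
  have h2 := (hC j).2 hp
  have h3 : (φ j, p) ∈ ⋂ l ≤ j, B l := h2
  simp only [Set.mem_iInter] at h3
  have h4 := h3 i hij
  change (n, p) ∈ B i
  rw [hj]
  exact h4

/-- `(f, π, A)` is defeated by `E`. -/
def Defeats (f π : Om → ℕ) (A : Om → Finset (Finset ℕ)) (E : Set Om) : Prop :=
  (∃ g : ℕ → ℕ, ∀ q ∈ E, f q ≤ g (π q)) ∨ (∃ v, ∀ q ∈ E, π q ≤ v) ∨
    ∃ Q : Set (Set ℕ), Q.Countable ∧ ∀ X ∉ Q, ¬ Pos (E ∩ {q | res X (f q) ∈ A q})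

theorem not_pos_of_columns {E : Set Om} (h : ∀ n, ¬ Big n 1 (cl E n)) : ¬ Pos E := by
  intro hE
  obtain ⟨n, hn⟩ := (hE 1).exists
  exact h n hn

theorem not_big_empty (n : ℕ) : ¬ Big n 1 ∅ := by
  intro hn
  obtain ⟨m, hm⟩ := hn.exists
  have h1 := hm.card_le
  have h2 : sl ∅ m = ∅ := by
    rw [eq_empty_iff_forall_notMem]
    intro F hF
    exact (mem_sl.1 hF).2
  rw [h2, card_empty, mul_zero] at h1
  have : 0 < 2 ^ 2 ^ m := by positivity
  omega

/-- The density theorem. -/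
theorem density {E : Set Om} (hE : Pos E) (f π : Om → ℕ) (A : Om → Finset (Finset ℕ))
    (hA : ∀ q, (A q).card ≤ π q) : ∃ E' ⊆ E, Pos E' ∧ Defeats f π A E' := by
  classical
  -- types of columns
  let Ty (a b : Prop) (n : ℕ) (C : Set Cell) : Prop := C ⊆ cl E n ∧
    (a → Un (fun p => π (n, p)) C) ∧ (¬ a → Bd (fun p => π (n, p)) C) ∧
    (b → Un (fun p => f (n, p)) C) ∧ (¬ b → Bd (fun p => f (n, p)) C)
  have h1 : ∀ k, ∃ᶠ n in atTop, ∃ C, Big n k C ∧
      (Ty True True n C ∨ Ty True False n C ∨ Ty False True n C ∨ Ty False False n C) := by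
    intro k
    refine (hE (2 * (2 * k))).mono ?_
    intro n hn
    obtain ⟨C, hC, hCb, hCπ⟩ := dichotomy (fun p => π (n, p)) hn
    obtain ⟨C', hC', hCb', hCf⟩ := dichotomy (fun p => f (n, p)) hCb
    refine ⟨C', hCb', ?_⟩
    have hsub : C' ⊆ cl E n := hC'.trans hC
    rcases hCπ with hπ | hπ <;> rcases hCf with hf | hf
    · exact Or.inr (Or.inr (Or.inr ⟨hsub, by simp, fun _ => hπ.mono hC', by simp, fun _ => hf⟩))
    · exact Or.inr (Or.inr (Or.inl ⟨hsub, by simp, fun _ => hπ.mono hC', fun _ => hf, by simp⟩))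
    · exact Or.inr (Or.inl ⟨hsub, fun _ => hπ.mono hC', by simp, by simp, fun _ => hf⟩)
    · exact Or.inl ⟨hsub, fun _ => hπ.mono hC', by simp, fun _ => hf, by simp⟩
  -- one type occurs for all `k`
  have h2 : (∀ k, ∃ᶠ n in atTop, ∃ C, Big n k C ∧ Ty True True n C) ∨
      (∀ k, ∃ᶠ n in atTop, ∃ C, Big n k C ∧ Ty True False n C) ∨
      (∀ k, ∃ᶠ n in atTop, ∃ C, Big n k C ∧ Ty False True n C) ∨
      (∀ k, ∃ᶠ n in atTop, ∃ C, Big n k C ∧ Ty False False n C) := by
    by_contra hcon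
    push Not at hcon
    obtain ⟨⟨k1, hk1⟩, ⟨k2, hk2⟩, ⟨k3, hk3⟩, ⟨k4, hk4⟩⟩ := hcon
    obtain ⟨n, ⟨⟨⟨⟨C, hCb, hT⟩, a1⟩, a2⟩, a3⟩, a4⟩ :=
      (((((h1 (max (max k1 k2) (max k3 k4))).and_eventually hk1).and_eventually hk2).and_eventually
        hk3).and_eventually hk4).exists
    have e1 : k1 ≤ max (max k1 k2) (max k3 k4) := by omega
    have e2 : k2 ≤ max (max k1 k2) (max k3 k4) := by omega
    have e3 : k3 ≤ max (max k1 k2) (max k3 k4) := by omega
    have e4 : k4 ≤ max (max k1 k2) (max k3 k4) := by omega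
    rcases hT with hT | hT | hT | hT
    · exact a1 C (hCb.mono e1 subset_rfl) hT
    · exact a2 C (hCb.mono e2 subset_rfl) hT
    · exact a3 C (hCb.mono e3 subset_rfl) hT
    · exact a4 C (hCb.mono e4 subset_rfl) hT
  -- if `π` tends to infinity on columns
  have caseUn : (∀ k, ∃ᶠ n in atTop, ∃ C, Big n k C ∧ C ⊆ cl E n ∧ Un (fun p => π (n, p)) C) →
      ∃ E' ⊆ E, Pos E' ∧ Defeats f π A E' := by
    intro h
    obtain ⟨φ, C, hφ, hC⟩ := select h
    -- levels of the columns where `π ≤ v`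
    let C' : ℕ → Set Cell := fun i =>
      C i ∩ {p | i < π (φ i, p) ∧ p.2 ∈ Fm p.1}
    have hC' : ∀ i, Big (φ i) i (C' i) := by
      intro i
      obtain ⟨m0, hm0⟩ := (hC i).2.2 i
      have : Big (φ i) i (C i ∩ {p | p.2 ∈ Fm p.1}) := by
        refine Frequently.mono (hC i).1 (fun m (hm : L _ _ _ _) => hm.mono le_rfl ?_)
        intro F hF
        rw [mem_sl] at *
        exact ⟨hF.1, hF.2, hF.1⟩
      refine this.of_eventually ?_
      filter_upwards [eventually_ge_atTop m0] with m hm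
      rintro F ⟨hF1, hF2⟩
      exact ⟨hF1, hm0 m hm F hF1, hF2⟩
    refine ⟨asm φ C', asm_subset (fun i => Set.inter_subset_left.trans (hC i).2.1),
      pos_asm hφ hC', Or.inl ?_⟩
    -- finiteness of `{q ∈ E' | π q ≤ v}`
    have hfin : ∀ v, {q | q ∈ asm φ C' ∧ π q ≤ v}.Finite := by
      intro v
      have h3 : ∀ i, ∃ m0, ∀ m, m0 ≤ m → ∀ F, (m, F) ∈ C i → v < π (φ i, (m, F)) :=
        fun i => (hC i).2.2 v
      choose m0 hm0 using h3
      have h4 : {q | q ∈ asm φ C' ∧ π q ≤ v} ⊆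
          ((range v).biUnion (fun i => (range (m0 i)).biUnion (fun m =>
            (Fm m).image (fun F => ((φ i, (m, F)) : Om)))) : Finset Om) := by
        rintro ⟨n, m, F⟩ ⟨⟨i, hi, hp1, hp2, hp3⟩, hle⟩
        simp only at hi hp2 hp3 hle hp1
        subst hi
        simp only [coe_biUnion, Set.mem_iUnion, mem_coe, mem_image, mem_range]
        refine ⟨i, by omega, m, ?_, F, hp3, rfl⟩
        by_contra hcon
        have := hm0 i m (by omega) F hp1
        omega
      exact (finite_toSet _).subset h4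
    refine ⟨fun v => (hfin v).toFinset.sup f, ?_⟩
    intro q hq
    exact le_sup (f := f) ((hfin (π q)).mem_toFinset.2 ⟨hq, le_rfl⟩)
  rcases h2 with h | h | h | h
  · exact caseUn (fun k => (h k).mono (fun n ⟨C, hC, hT⟩ => ⟨C, hC, hT.1, hT.2.1 trivial⟩))
  · exact caseUn (fun k => (h k).mono (fun n ⟨C, hC, hT⟩ => ⟨C, hC, hT.1, hT.2.1 trivial⟩))
  · -- `π` bounded and `f` unbounded on columns
    have h3 : ∀ k, ∃ᶠ n in atTop, ∃ C, Big n k C ∧ (C ⊆ cl E n ∧ ∃ Q : Set (Set ℕ), Q.Finite ∧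
        ∀ X ∉ Q, ¬ Big n 1 (C ∩ {p | res X (f (n, p)) ∈ A (n, p)})) := by
      intro k
      refine (h k).mono ?_
      rintro n ⟨C, hC, hT⟩
      obtain ⟨c, hc⟩ := hT.2.2.1 (by simp)
      obtain ⟨C', hC', hb, Q, hQ, hQ'⟩ := thin (f := fun p => f (n, p)) (A := fun p => A (n, p))
        (c := c) hC (hT.2.2.2.1 trivial) (fun p hp => (hA _).trans (hc p hp))
      exact ⟨C', hb, hC'.trans hT.1, Q, hQ, hQ'⟩
    obtain ⟨φ, C, hφ, hC⟩ := select h3
    choose hC1 Q hQ1 hQ2 using fun i => (hC i).2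
    refine ⟨asm φ C, asm_subset hC1, pos_asm hφ (fun i => (hC i).1), Or.inr (Or.inr ?_)⟩
    refine ⟨⋃ i, Q i, Set.countable_iUnion (fun i => (hQ1 i).countable), ?_⟩
    intro X hX
    rw [Set.mem_iUnion] at hX
    push Not at hX
    apply not_pos_of_columns
    intro n
    by_cases hn : ∃ i, n = φ i
    · obtain ⟨i, rfl⟩ := hn
      have h4 : cl (asm φ C ∩ {q | res X (f q) ∈ A q}) (φ i) =
          C i ∩ {p | res X (f (φ i, p)) ∈ A (φ i, p)} := by
        have := cl_asm hφ C i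
        ext p
        rw [← this]
        rfl
      rw [h4]
      exact hQ2 i X (hX i)
    · have h4 : cl (asm φ C ∩ {q | res X (f q) ∈ A q}) n = ∅ := by
        rw [Set.eq_empty_iff_forall_notMem]
        rintro p ⟨⟨i, hi, -⟩, -⟩
        exact hn ⟨i, hi⟩
      rw [h4]
      exact not_big_empty n
  · -- both bounded on columns
    have h3 : ∀ k, ∃ᶠ n in atTop, ∃ C, Big n k C ∧ (C ⊆ cl E n ∧ Bd (fun p => f (n, p)) C) := by
      intro k
      refine (h k).mono ?_
      rintro n ⟨C, hC, hT⟩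
      exact ⟨C, hC, hT.1, hT.2.2.2.2 (by simp)⟩
    obtain ⟨φ, C, hφ, hC⟩ := select h3
    choose hC1 d hd using fun i => (hC i).2
    have hE1 : Pos (asm φ C) := pos_asm hφ (fun i => (hC i).1)
    have hE1E : asm φ C ⊆ E := asm_subset hC1
    by_cases hv : ∃ v, Pos (asm φ C ∩ {q | π q ≤ v})
    · obtain ⟨v, hv⟩ := hv
      exact ⟨_, Set.inter_subset_left.trans hE1E, hv, Or.inr (Or.inl ⟨v, fun q hq => hq.2⟩)⟩
    · push Not at hv
      have hv' : ∀ v, Pos (asm φ C ∩ {q | v < π q}) := by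
        intro v
        have h4 : asm φ C = (asm φ C ∩ {q | π q ≤ v}) ∪ (asm φ C ∩ {q | v < π q}) := by
          ext q
          simp only [Set.mem_union, Set.mem_inter_iff, Set.mem_ofPred_eq]
          rcases le_or_gt (π q) v with h | h
          · simp [h, not_lt.2 h]
          · simp [h, not_le.2 h]
        rw [h4] at hE1
        exact hE1.union.resolve_left (hv v)
      have h5 : ∀ k, ∃ᶠ n in atTop, ∃ C', Big n k C' ∧
          (C' ⊆ cl E n ∧ (∀ p ∈ C', k < π (n, p)) ∧ Bd (fun p => f (n, p)) C') := by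
        intro k
        refine (hv' k (k + 1)).mono ?_
        intro n hn
        refine ⟨cl (asm φ C ∩ {q | k < π q}) n, hn.mono (Nat.le_succ k) subset_rfl,
          fun p hp => hE1E hp.1, fun p hp => hp.2, ?_⟩
        by_cases hn' : ∃ i, n = φ i
        · obtain ⟨i, rfl⟩ := hn'
          refine ⟨d i, ?_⟩
          rintro p ⟨hp, -⟩
          have : p ∈ cl (asm φ C) (φ i) := hp
          rw [cl_asm hφ] at this
          exact hd i p this
        · refine ⟨0, ?_⟩
          rintro p ⟨⟨i, hi, -⟩, -⟩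
          exact absurd ⟨i, hi⟩ hn'
      obtain ⟨θ, C', hθ, hC'⟩ := select h5
      choose hC1' hC2' d' hd' using fun i => (hC' i).2
      refine ⟨asm θ C', asm_subset hC1', pos_asm hθ (fun i => (hC' i).1), Or.inl ?_⟩
      refine ⟨fun w => (range w).sup d', ?_⟩
      rintro ⟨n, p⟩ ⟨i, hi, hp⟩
      simp only at hi hp
      subst hi
      refine (hd' i p hp).trans ?_
      exact le_sup (f := d') (mem_range.2 (hC2' i p hp))

end Pool.Agent.helper87.TT
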