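import Mathlib
import Pool.Agent.helper87.TTPos

/-! Recursion of length `ω₁` over the positive sets, and the resulting ultrafilters. -/

namespace Pool.Agent.helper87.TT

open Filter Set

section seq

variable {κ : Type} [LinearOrder κ] [WellFoundedLT κ]

open Classical in
/-- one step of the recursion -/
noncomputable def step (Dn : κ → Set (Set Om)) (i : κ) (prev : ∀ j, j < i → Set Om) : Set Om :=
  if h : ∃ E, Pos E ∧ E ∈ Dn i ∧ ∀ j (hj : j < i), Sub E (prev j hj) then h.choose else ∅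

/-- the recursively defined sequence -/
noncomputable def seq (Dn : κ → Set (Set Om)) : κ → Set Om :=
  (wellFounded_lt (α := κ)).fix (step Dn)

theorem seq_eq (Dn : κ → Set (Set Om)) (i : κ) :
    seq Dn i = step Dn i (fun j _ => seq Dn j) := by
  unfold seq
  rw [WellFounded.fix_eq]

theorem sub_iInter {E : Set Om} {B : ℕ → Set Om} (k : ℕ) (h : ∀ j ≤ k, Sub E (B j)) :
    Sub E (⋂ j ≤ k, B j) := by
  have h1 : ∀ᶠ n in atTop, ∀ j ∈ Set.Iic k, cl E n ⊆ cl (B j) n :=
    (eventually_all_finite (Set.finite_Iic k)).2 (fun j hj => h j hj)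
  filter_upwards [h1] with n hn
  intro p hp
  have : ∀ j, j ≤ k → (n, p) ∈ B j := fun j hj => hn j hj hp
  change (n, p) ∈ ⋂ j ≤ k, B j
  simp only [mem_iInter]
  exact this

theorem seq_spec (hκ : ∀ i : κ, (Iio i).Countable) (Dn : κ → Set (Set Om))
    (hD : ∀ i E, Pos E → ∃ E' ⊆ E, Pos E' ∧ E' ∈ Dn i) (i : κ) :
    Pos (seq Dn i) ∧ seq Dn i ∈ Dn i ∧ ∀ j < i, Sub (seq Dn i) (seq Dn j) := by
  induction i using WellFoundedLT.induction with
  | ind i ih =>
    have hex : ∃ E, Pos E ∧ E ∈ Dn i ∧ ∀ j (_ : j < i), Sub E (seq Dn j) := by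
      rcases (Iio i).eq_empty_or_nonempty with he | hne
      · obtain ⟨E', -, hE', hE'D⟩ := hD i _ pos_univ
        refine ⟨E', hE', hE'D, ?_⟩
        intro j hj
        have : j ∈ Iio i := hj
        rw [he] at this
        exact absurd this (notMem_empty _)
      · obtain ⟨e, he⟩ := (hκ i).exists_eq_range hne
        have hei : ∀ k, e k < i := fun k => by
          have : e k ∈ Iio i := by rw [he]; exact ⟨k, rfl⟩
          exact this
        have h1 : ∀ k, Pos (⋂ j ≤ k, seq Dn (e j)) := by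
          intro k
          obtain ⟨j0, hj0, hmax⟩ := Finset.exists_max_image (Finset.range (k + 1)) e
            ⟨0, by simp⟩
          refine (ih _ (hei j0)).1.of_sub (sub_iInter k ?_)
          intro j hj
          have hle : e j ≤ e j0 := hmax j (Finset.mem_range.2 (by omega))
          rcases hle.lt_or_eq with h | h
          · exact (ih _ (hei j0)).2.2 _ h
          · rw [h]; exact Sub.refl _
        obtain ⟨E0, hE0, hE0s⟩ := exists_pseudo h1
        obtain ⟨E', hE'E, hE', hE'D⟩ := hD i _ hE0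
        refine ⟨E', hE', hE'D, ?_⟩
        intro j hj
        have : j ∈ Iio i := hj
        rw [he] at this
        obtain ⟨k, rfl⟩ := this
        exact (sub_of_subset hE'E).trans (hE0s k)
    have hstep : seq Dn i = hex.choose := by
      rw [seq_eq]
      unfold step
      rw [dif_pos hex]
    rw [hstep]
    exact hex.choose_spec

theorem exists_ultra_seq [Nonempty κ] (hκ : ∀ i : κ, (Iio i).Countable) (Dn : κ → Set (Set Om))
    (hD : ∀ i E, Pos E → ∃ E' ⊆ E, Pos E' ∧ E' ∈ Dn i) :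
    ∃ U : Ultrafilter Om, (∀ S ∈ U, Pos S) ∧ ∀ i, ∃ E ∈ U, E ∈ Dn i := by
  have hs := seq_spec hκ Dn hD
  have hmono : ∀ i j, i ≤ j → Sub (seq Dn j) (seq Dn i) := by
    intro i j hij
    rcases hij.lt_or_eq with h | h
    · exact (hs j).2.2 i h
    · rw [h]; exact Sub.refl _
  have hdiff : ∀ i j, i ≤ j → ∀ S, ¬ Pos (seq Dn i \ S) → ¬ Pos (seq Dn j \ S) := by
    intro i j hij S h1 h2
    apply h1
    refine h2.of_sub ?_
    filter_upwards [hmono i j hij] with n hn
    rintro p ⟨hp1, hp2⟩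
    exact ⟨hn hp1, hp2⟩
  let Fl : Filter Om :=
    { sets := {S | ∃ i, ¬ Pos (seq Dn i \ S)}
      univ_sets := by
        obtain ⟨i⟩ := ‹Nonempty κ›
        refine ⟨i, ?_⟩
        rw [sdiff_univ]
        exact not_pos_empty
      sets_of_superset := by
        rintro S T ⟨i, hi⟩ hST
        refine ⟨i, fun h => hi (h.mono ?_)⟩
        exact sdiff_subset_sdiff_right hST
      inter_sets := by
        rintro S T ⟨i, hi⟩ ⟨j, hj⟩
        refine ⟨max i j, fun h => ?_⟩
        rw [sdiff_inter] at h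
        rcases h.union with h | h
        · exact hdiff i _ (le_max_left _ _) S hi h
        · exact hdiff j _ (le_max_right _ _) T hj h }
  have hne : Fl.NeBot := by
    rw [neBot_iff]
    intro hbot
    have : (∅ : Set Om) ∈ Fl := by rw [hbot]; exact mem_bot
    obtain ⟨i, hi⟩ := this
    rw [sdiff_empty] at hi
    exact hi (hs i).1
  obtain ⟨U, hU⟩ := Ultrafilter.exists_le Fl
  refine ⟨U, ?_, ?_⟩
  · intro S hS
    by_contra hpos
    have h1 : Sᶜ ∈ Fl := by
      obtain ⟨i⟩ := ‹Nonempty κ›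
      refine ⟨i, fun h => hpos (h.mono ?_)⟩
      rw [sdiff_compl]
      exact inter_subset_right
    have h2 : Sᶜ ∈ U := hU h1
    exact (Ultrafilter.compl_mem_iff_notMem.1 h2) hS
  · intro i
    refine ⟨seq Dn i, hU ⟨i, ?_⟩, (hs i).2.1⟩
    rw [sdiff_self]
    exact not_pos_empty

end seq

/-- Ultrafilters of positive sets defeating `ℵ₁` many triples. -/
theorem exists_ultra {ι : Type} (hι : Cardinal.mk ι ≤ Cardinal.aleph 1) (f π : ι → Om → ℕ)
    (A : ι → Om → Finset (Finset ℕ)) :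
    ∃ U : Ultrafilter Om, (∀ S ∈ U, Pos S) ∧
      ∀ i, (∀ q, (A i q).card ≤ π i q) → ∃ E ∈ U, Defeats (f i) (π i) (A i) E := by
  classical
  let κ : Type := (Cardinal.aleph 1).ord.ToType
  have hκc : Cardinal.mk κ = Cardinal.aleph 1 := Cardinal.mk_ord_toType _
  have hκ : ∀ i : κ, (Iio i).Countable := by
    intro i
    rw [← Cardinal.le_aleph0_iff_set_countable, ← Cardinal.lt_aleph_one_iff]
    refine lt_of_lt_of_eq (Cardinal.mk_Iio_lt i ?_) hκc
    rw [hκc]
    exact (Ordinal.type_toType _).symm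
  have hne : Nonempty κ := by
    rw [← Cardinal.mk_ne_zero_iff, hκc]
    exact (Cardinal.aleph_pos 1).ne'
  rw [← hκc] at hι
  obtain ⟨e⟩ := Cardinal.le_def _ _ |>.1 hι
  let Dn : κ → Set (Set Om) := fun k => {E | ∀ i, e i = k → (∀ q, (A i q).card ≤ π i q) →
    Defeats (f i) (π i) (A i) E}
  have hD : ∀ k E, Pos E → ∃ E' ⊆ E, Pos E' ∧ E' ∈ Dn k := by
    intro k E hE
    by_cases h : ∃ i, e i = k ∧ ∀ q, (A i q).card ≤ π i q
    · obtain ⟨i, hi, hA⟩ := h
      obtain ⟨E', hE'E, hE', hdef⟩ := density hE (f i) (π i) (A i) hA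
      refine ⟨E', hE'E, hE', ?_⟩
      intro j hj _
      have : j = i := e.injective (hj.trans hi.symm)
      subst this
      exact hdef
    · refine ⟨E, subset_rfl, hE, ?_⟩
      intro i hi hA
      exact absurd ⟨i, hi, hA⟩ h
  obtain ⟨U, hU, hUD⟩ := exists_ultra_seq hκ Dn hD
  refine ⟨U, hU, ?_⟩
  intro i hA
  obtain ⟨E, hE, hED⟩ := hUD (e i)
  exact ⟨E, hE, hED i rfl hA⟩

/-- the set attached to `X` -/
def CX (X : Set ℕ) : Set Om := {q | res X q.2.1 ∈ q.2.2}

theorem CX_mem {U : Ultrafilter Om} (hU : ∀ S ∈ U, Pos S) (X : Set ℕ) : CX X ∈ U := by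
  by_contra h
  have h1 : (CX X)ᶜ ∈ U := Ultrafilter.compl_mem_iff_notMem.2 h
  refine not_pos_of_columns (fun n hn => ?_) (hU _ h1)
  obtain ⟨m, hm⟩ := hn.exists
  obtain ⟨F, hF, hFX, -⟩ := hm.exists_mem (X := {res X m}) (J := ∅)
    ⟨by simpa using res_mem_Pt X m, by simp, by simp, by simp⟩
  obtain ⟨-, hF2⟩ := mem_sl.1 hF
  exact hF2 (hFX (Finset.mem_singleton_self _))

theorem iInter_CX_notMem {U : Ultrafilter Om} (hU : ∀ S ∈ U, Pos S) {𝒳 : Set (Set ℕ)}
    (h : 𝒳.Infinite) : (⋂ X ∈ 𝒳, CX X) ∉ U := by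
  classical
  intro hmem
  refine not_pos_of_columns (fun n hn => ?_) (hU _ hmem)
  obtain ⟨T, hT, hTc⟩ := h.exists_subset_card_eq (2 * n)
  obtain ⟨m0, hm0⟩ := exists_injOn_res T
  obtain ⟨m, hm, hmL⟩ := (frequently_atTop.1 hn) m0
  obtain ⟨F, hF, -, hFJ⟩ := hmL.exists_mem (X := ∅) (J := {T.image (fun X => res X m)})
    ⟨by simp, by simp, by simp, by
      intro I hI
      rw [Finset.mem_singleton] at hI
      subst hI
      refine ⟨?_, ?_⟩
      · intro s hs
        obtain ⟨X, -, rfl⟩ := Finset.mem_image.1 hs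
        exact res_mem_Pt X m
      · rw [Finset.card_image_of_injOn (hm0 m hm), hTc]⟩
  obtain ⟨-, hF2⟩ := mem_sl.1 hF
  apply hFJ _ (Finset.mem_singleton_self _)
  intro s hs
  obtain ⟨X, hX, rfl⟩ := Finset.mem_image.1 hs
  have : ((n, (m, F)) : Om) ∈ ⋂ X ∈ 𝒳, CX X := hF2
  simp only [mem_iInter] at this
  exact this X (hT hX)

/-- a defeated triple captures only countably many sets -/
theorem countable_of_defeats {U : Ultrafilter Om} (hU : ∀ S ∈ U, Pos S) {f π : Om → ℕ}
    {A : Om → Finset (Finset ℕ)} (hA : ∀ q, (A q).card ≤ π q)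
    (h3 : ∀ g : ℕ → ℕ, {q | g (π q) < f q} ∈ U) {E : Set Om} (hE : E ∈ U)
    (hdef : Defeats f π A E) : {X : Set ℕ | {q | res X (f q) ∈ A q} ∈ U}.Countable := by
  classical
  rcases hdef with ⟨g, hg⟩ | ⟨v, hv⟩ | ⟨Q, hQ, hQ'⟩
  · exfalso
    have h1 := U.inter_sets hE (h3 g)
    have h2 : (E ∩ {q | g (π q) < f q}) = ∅ := by
      rw [eq_empty_iff_forall_notMem]
      rintro q ⟨hq1, hq2⟩
      have := hg q hq1
      simp only [mem_ofPred_eq] at hq2
      omega
    have h1' : (E ∩ {q | g (π q) < f q}) ∈ U := h1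
    rw [h2] at h1'
    exact not_pos_empty (hU _ h1')
  · apply Set.Finite.countable
    by_contra hinf
    obtain ⟨T, hT, hTc⟩ := (Set.not_finite.1 hinf).exists_subset_card_eq (v + 1)
    obtain ⟨m0, hm0⟩ := exists_injOn_res T
    have h1 : {q | m0 < f q} ∈ U := h3 (fun _ => m0)
    have h2 : (⋂ X ∈ (T : Set (Set ℕ)), {q | res X (f q) ∈ A q}) ∈ (U : Filter Om) :=
      (biInter_mem T.finite_toSet).2 (fun X hX => hT hX)
    have h4 : ((E ∩ {q | m0 < f q}) ∩ (⋂ X ∈ (T : Set (Set ℕ)), {q | res X (f q) ∈ A q})) ∈ U :=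
      Filter.inter_mem (Filter.inter_mem hE h1) h2
    have h5 : ((E ∩ {q | m0 < f q}) ∩ (⋂ X ∈ (T : Set (Set ℕ)), {q | res X (f q) ∈ A q})) = ∅ := by
      rw [eq_empty_iff_forall_notMem]
      rintro q ⟨⟨hq1, hq2⟩, hq3⟩
      simp only [mem_iInter, mem_ofPred_eq] at hq2 hq3
      have h6 : T.image (fun X => res X (f q)) ⊆ A q := by
        intro s hs
        obtain ⟨X, hX, rfl⟩ := Finset.mem_image.1 hs
        exact hq3 X hX
      have h7 := Finset.card_le_card h6
      rw [Finset.card_image_of_injOn (hm0 (f q) (by omega)), hTc] at h7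
      have := hA q
      have := hv q hq1
      omega
    rw [h5] at h4
    exact not_pos_empty (hU _ h4)
  · refine hQ.mono ?_
    intro X hX
    by_contra hXQ
    exact hQ' X hXQ (hU _ (Filter.inter_mem hE hX))

end Pool.Agent.helper87.TT
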