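import Mathlib
import Pool.Agent.helper87.TTGeneric

/-! Transfer to ultrafilters on `ℕ`. -/

namespace Pool.Agent.helper87.TT

open Filter Set

/-- a fixed bijection of the underlying set with `ℕ` -/
noncomputable def eqv : Om ≃ ℕ := Denumerable.eqv Om

/-- Tukey-top ultrafilters on `ℕ` -/
def TukeyTop (U : Ultrafilter ℕ) : Prop :=
  ∃ (ι : Type) (A : ι → Set ℕ), Cardinal.mk ι = Cardinal.continuum ∧ (∀ i, A i ∈ U) ∧
    ∀ I : Set ι, I.Countable → I.Infinite → (⋂ i ∈ I, A i) ∉ U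

/-- conditions 1-3 of diamond minus (without the condition on the size of `T`) -/
def Guess (U : Ultrafilter ℕ) (f π : ℕ → ℕ) (𝒜 : ℕ → Set (Set ℕ)) (T : Set (Set ℕ)) : Prop :=
  (∀ n, (∀ a ∈ 𝒜 n, a ⊆ {k | k < f n}) ∧ (𝒜 n).encard ≤ π n) ∧
    (∀ X ∈ T, {n | X ∩ {k | k < f n} ∈ 𝒜 n} ∈ U) ∧
    ∀ g : ℕ → ℕ, {n | g (π n) < f n} ∈ U

theorem tukeyTop_map {U : Ultrafilter Om} (hU : ∀ S ∈ U, Pos S) : TukeyTop (U.map eqv) := by
  refine ⟨Set ℕ, fun X => eqv.symm ⁻¹' (CX X), by simp, ?_, ?_⟩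
  · intro X
    rw [Ultrafilter.mem_map]
    have : eqv ⁻¹' (eqv.symm ⁻¹' (CX X)) = CX X := by
      ext q; simp
    rw [this]
    exact CX_mem hU X
  · intro I _ hI
    rw [Ultrafilter.mem_map]
    have : eqv ⁻¹' (⋂ i ∈ I, eqv.symm ⁻¹' (CX i)) = ⋂ i ∈ I, CX i := by
      ext q; simp
    rw [this]
    exact iInter_CX_notMem hU hI

theorem coe_res (X : Set ℕ) (m : ℕ) : ((res X m : Finset ℕ) : Set ℕ) = X ∩ {k | k < m} := by
  ext i
  rw [Finset.mem_coe, mem_res]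
  simp only [mem_inter_iff, mem_ofPred_eq]
  tauto

open Classical in
/-- the finite family of finite sets belonging to `𝒜` -/
noncomputable def fin (𝒜 : Set (Set ℕ)) : Finset (Finset ℕ) :=
  if h : {s : Finset ℕ | (s : Set ℕ) ∈ 𝒜}.Finite then h.toFinset else ∅

theorem fin_finite {𝒜 : Set (Set ℕ)} {c : ℕ} (h : 𝒜.encard ≤ c) :
    {s : Finset ℕ | (s : Set ℕ) ∈ 𝒜}.Finite := by
  have hfin : 𝒜.Finite := by
    rw [← Set.encard_lt_top_iff]
    exact lt_of_le_of_lt h (by simp)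
  apply Set.Finite.of_finite_image (f := fun s : Finset ℕ => (s : Set ℕ))
  · refine hfin.subset ?_
    rintro _ ⟨s, hs, rfl⟩
    exact hs
  · intro s _ t _ hst
    exact Finset.coe_injective hst

theorem mem_fin {𝒜 : Set (Set ℕ)} {c : ℕ} (h : 𝒜.encard ≤ c) {s : Finset ℕ} :
    s ∈ fin 𝒜 ↔ (s : Set ℕ) ∈ 𝒜 := by
  unfold fin
  rw [dif_pos (fin_finite h)]
  simp

theorem card_fin_le {𝒜 : Set (Set ℕ)} {c : ℕ} (h : 𝒜.encard ≤ c) : (fin 𝒜).card ≤ c := by
  have h1 : ((fin 𝒜 : Finset (Finset ℕ)) : Set (Finset ℕ)).encard ≤ 𝒜.encard := by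
    have h2 : ((fun s : Finset ℕ => (s : Set ℕ)) '' ((fin 𝒜 : Finset (Finset ℕ)) :
        Set (Finset ℕ))).encard ≤ 𝒜.encard := by
      apply Set.encard_le_encard
      rintro _ ⟨s, hs, rfl⟩
      exact (mem_fin h).1 hs
    rwa [Function.Injective.encard_image Finset.coe_injective] at h2
  rw [Set.encard_coe_eq_coe_finsetCard] at h1
  exact_mod_cast h1.trans h

/-- The main theorem, without the continuum hypothesis: `ℵ₁` many triples can be defeated. -/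
theorem main_zfc {ι : Type} (hι : Cardinal.mk ι ≤ Cardinal.aleph 1) (f π : ι → ℕ → ℕ)
    (A : ι → ℕ → Finset (Finset ℕ)) :
    ∃ U : Ultrafilter ℕ, TukeyTop U ∧ ∀ i, (∀ n, (A i n).card ≤ π i n) →
      (∀ g : ℕ → ℕ, {n | g (π i n) < f i n} ∈ U) →
      {X : Set ℕ | {n | res X (f i n) ∈ A i n} ∈ U}.Countable := by
  obtain ⟨U, hU, hdef⟩ := exists_ultra hι (fun i q => f i (eqv q)) (fun i q => π i (eqv q))
    (fun i q => A i (eqv q))
  refine ⟨U.map eqv, tukeyTop_map hU, ?_⟩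
  intro i hA h3
  obtain ⟨E, hE, hEd⟩ := hdef i (fun q => hA _)
  have h := countable_of_defeats hU (fun q => hA _) (fun g => ?_) hE hEd
  · refine h.mono ?_
    intro X hX
    simp only [mem_ofPred_eq] at hX
    exact hX
  · exact h3 g

theorem guess_countable {U : Ultrafilter ℕ} {f π : ℕ → ℕ} {𝒜 : ℕ → Set (Set ℕ)}
    {T : Set (Set ℕ)} (h : Guess U f π 𝒜 T)
    (hU : (∀ n, (fin (𝒜 n)).card ≤ π n) → (∀ g : ℕ → ℕ, {n | g (π n) < f n} ∈ U) →
      {X : Set ℕ | {n | res X (f n) ∈ fin (𝒜 n)} ∈ U}.Countable) : T.Countable := by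
  refine (hU (fun n => card_fin_le (h.1 n).2) h.2.2).mono ?_
  intro X hX
  have h1 := h.2.1 X hX
  have h2 : {n | X ∩ {k | k < f n} ∈ 𝒜 n} = {n | res X (f n) ∈ fin (𝒜 n)} := by
    ext n
    simp only [mem_ofPred_eq]
    rw [mem_fin (h.1 n).2, coe_res]
  rw [h2] at h1
  exact h1

theorem mk_triples : Cardinal.mk ((ℕ → ℕ) × (ℕ → ℕ) × (ℕ → Finset (Finset ℕ))) =
    Cardinal.continuum := by
  have h : Cardinal.mk (ℕ → Finset (Finset ℕ)) = Cardinal.continuum := by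
    have : Cardinal.mk (Finset (Finset ℕ)) = Cardinal.aleph0 := Cardinal.mk_eq_aleph0 _
    rw [← Cardinal.power_def, this, Cardinal.mk_nat, Cardinal.aleph0_power_aleph0]
  have h' : Cardinal.mk (ℕ → ℕ) = Cardinal.continuum := by
    rw [← Cardinal.power_def, Cardinal.mk_nat, Cardinal.aleph0_power_aleph0]
  simp only [Cardinal.mk_prod, Cardinal.lift_id, h, h', Cardinal.continuum_mul_self]

end Pool.Agent.helper87.TT
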