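import Mathlib

/-! The algebraic matroid of `ℂ` over `ℚ` and the exponential predimension. -/

namespace Pool.Agent.helper87

open Set

/-- the algebraic matroid of `ℂ` over `ℚ` -/
noncomputable abbrev AM : Matroid ℂ := AlgebraicIndependent.matroid ℚ ℂ

theorem mem_cl_iff {X : Set ℂ} {a : ℂ} :
    a ∈ AM.closure X ↔ IsAlgebraic (Algebra.adjoin ℚ X) a := by
  rw [AM, AlgebraicIndependent.matroid_closure_eq]
  rfl

theorem subset_cl (X : Set ℂ) : X ⊆ AM.closure X := by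
  apply AM.subset_closure

theorem cl_mono {X Y : Set ℂ} (h : X ⊆ Y) : AM.closure X ⊆ AM.closure Y :=
  AM.closure_subset_closure h

theorem cl_subset_cl {X Y : Set ℂ} (h : X ⊆ AM.closure Y) : AM.closure X ⊆ AM.closure Y := by
  have := AM.closure_subset_closure h
  rwa [AM.closure_closure] at this

theorem cl_add {X : Set ℂ} {a b : ℂ} (ha : a ∈ AM.closure X) (hb : b ∈ AM.closure X) :
    a + b ∈ AM.closure X := by
  rw [mem_cl_iff] at *
  exact ha.add hb

theorem cl_mul {X : Set ℂ} {a b : ℂ} (ha : a ∈ AM.closure X) (hb : b ∈ AM.closure X) :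
    a * b ∈ AM.closure X := by
  rw [mem_cl_iff] at *
  exact ha.mul hb

theorem cl_inv {X : Set ℂ} {a : ℂ} (ha : a ∈ AM.closure X) :
    a⁻¹ ∈ AM.closure X := by
  rw [mem_cl_iff] at *
  exact ha.inv

theorem cl_of_algebraic {X : Set ℂ} {a : ℂ} (ha : IsAlgebraic ℚ a) : a ∈ AM.closure X := by
  rw [mem_cl_iff]
  exact ha.extendScalars (algebraMap ℚ (Algebra.adjoin ℚ X)).injective

theorem cl_rat {X : Set ℂ} (q : ℚ) : (q : ℂ) ∈ AM.closure X := by
  apply cl_of_algebraic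
  exact isAlgebraic_algebraMap q

theorem cl_pow {X : Set ℂ} {a : ℂ} (ha : a ∈ AM.closure X) (n : ℕ) :
    a ^ n ∈ AM.closure X := by
  rw [mem_cl_iff] at *
  exact ha.pow n

theorem cl_of_pow {X : Set ℂ} {a : ℂ} {n : ℕ} (hn : 0 < n) (ha : a ^ n ∈ AM.closure X) :
    a ∈ AM.closure X := by
  rw [mem_cl_iff] at *
  exact ha.of_pow hn

theorem cl_zpow {X : Set ℂ} {a : ℂ} (ha : a ∈ AM.closure X) (n : ℤ) :
    a ^ n ∈ AM.closure X := by
  rcases n with n | n
  · simpa using cl_pow ha n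
  · rw [zpow_negSucc]
    exact cl_inv (cl_pow ha _)

theorem cl_exp_qsmul {X : Set ℂ} {v : ℂ} (hv : Complex.exp v ∈ AM.closure X) (q : ℚ) :
    Complex.exp (q • v) ∈ AM.closure X := by
  apply cl_of_pow q.den_pos
  rw [← Complex.exp_nat_mul]
  have h : (q.den : ℂ) * (q • v) = q.num * v := by
    rw [Rat.smul_def, ← mul_assoc]
    congr 1
    exact_mod_cast Rat.den_mul_eq_num q
  rw [h, Complex.exp_int_mul]
  exact cl_zpow hv _

theorem cl_qsmul {X : Set ℂ} {v : ℂ} (hv : v ∈ AM.closure X) (q : ℚ) :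
    q • v ∈ AM.closure X := by
  rw [Rat.smul_def]
  exact cl_mul (cl_rat q) hv

/-- exponential graph set of a set -/
def gr (X : Set ℂ) : Set ℂ := X ∪ Complex.exp '' X

theorem gr_mono {X Y : Set ℂ} (h : X ⊆ Y) : gr X ⊆ gr Y :=
  union_subset_union h (image_mono h)

theorem gr_span_subset (X : Set ℂ) :
    gr (Submodule.span ℚ X : Set ℂ) ⊆ AM.closure (gr X) := by
  have key : ∀ v ∈ Submodule.span ℚ X, v ∈ AM.closure (gr X) ∧
      Complex.exp v ∈ AM.closure (gr X) := by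
    intro v hv
    induction hv using Submodule.span_induction with
    | mem x hx =>
      exact ⟨subset_cl _ (Or.inl hx), subset_cl _ (Or.inr ⟨x, hx, rfl⟩)⟩
    | zero =>
      refine ⟨?_, ?_⟩
      · exact_mod_cast cl_rat (X := gr X) 0
      · rw [Complex.exp_zero]; exact_mod_cast cl_rat (X := gr X) 1
    | add x y _ _ hx hy =>
      refine ⟨cl_add hx.1 hy.1, ?_⟩
      rw [Complex.exp_add]
      exact cl_mul hx.2 hy.2
    | smul q x _ hx =>
      exact ⟨cl_qsmul hx.1 q, cl_exp_qsmul hx.2 q⟩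
  rintro w (hw | ⟨v, hv, rfl⟩)
  · exact (key w hw).1
  · exact (key v hv).2

/-- the rank (transcendence degree) of `ℚ(V, e^V)` -/
noncomputable def rk (X : Set ℂ) : ℕ∞ := AM.eRk (gr X)

theorem rk_mono {X Y : Set ℂ} (h : X ⊆ Y) : rk X ≤ rk Y := AM.eRk_mono (gr_mono h)

theorem rk_le_of_subset_cl {X Y : Set ℂ} (h : X ⊆ AM.closure Y) : AM.eRk X ≤ AM.eRk Y := by
  rw [← AM.eRk_closure_eq Y]
  exact AM.eRk_mono h

theorem rk_span (X : Set ℂ) : rk (Submodule.span ℚ X : Set ℂ) = rk X := by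
  apply le_antisymm
  · exact rk_le_of_subset_cl (gr_span_subset X)
  · exact rk_mono Submodule.subset_span

theorem rk_submodular (V W : Submodule ℚ ℂ) :
    rk (V ⊓ W : Submodule ℚ ℂ) + rk (V ⊔ W : Submodule ℚ ℂ) ≤ rk V + rk W := by
  have h1 : gr ((V ⊓ W : Submodule ℚ ℂ) : Set ℂ) ⊆ gr V ∩ gr W := by
    apply subset_inter
    · exact gr_mono (by intro x hx; exact hx.1)
    · exact gr_mono (by intro x hx; exact hx.2)
  have h2 : gr ((V ⊔ W : Submodule ℚ ℂ) : Set ℂ) ⊆ AM.closure (gr V ∪ gr W) := by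
    have key : ∀ v ∈ V ⊔ W, v ∈ AM.closure (gr V ∪ gr W) ∧
        Complex.exp v ∈ AM.closure (gr V ∪ gr W) := by
      intro v hv
      obtain ⟨x, hx, y, hy, rfl⟩ := Submodule.mem_sup.1 hv
      rw [Complex.exp_add]
      exact ⟨cl_add (subset_cl _ (Or.inl (Or.inl hx))) (subset_cl _ (Or.inr (Or.inl hy))),
        cl_mul (subset_cl _ (Or.inl (Or.inr ⟨x, hx, rfl⟩)))
          (subset_cl _ (Or.inr (Or.inr ⟨y, hy, rfl⟩)))⟩
    rintro w (hw | ⟨v, hv, rfl⟩)
    · exact (key w hw).1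
    · exact (key v hv).2
  calc rk (V ⊓ W : Submodule ℚ ℂ) + rk (V ⊔ W : Submodule ℚ ℂ)
      ≤ AM.eRk (gr V ∩ gr W) + AM.eRk (gr V ∪ gr W) :=
        add_le_add (AM.eRk_mono h1) (rk_le_of_subset_cl h2)
    _ ≤ AM.eRk (gr V) + AM.eRk (gr W) := AM.eRk_inter_add_eRk_union_le _ _

theorem rk_sup_span_singleton_le {V : Submodule ℚ ℂ} {s : ℂ} (hs : s ∈ AM.closure (gr V)) :
    rk (V ⊔ Submodule.span ℚ {s} : Submodule ℚ ℂ) ≤ rk V + 1 := by
  have h2 : gr ((V ⊔ Submodule.span ℚ {s} : Submodule ℚ ℂ) : Set ℂ) ⊆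
      AM.closure (insert (Complex.exp s) (gr V)) := by
    have hsub : gr V ⊆ insert (Complex.exp s) (gr V) := subset_insert _ _
    have key : ∀ v ∈ V ⊔ Submodule.span ℚ {s},
        v ∈ AM.closure (insert (Complex.exp s) (gr V)) ∧
        Complex.exp v ∈ AM.closure (insert (Complex.exp s) (gr V)) := by
      intro v hv
      obtain ⟨x, hx, y, hy, rfl⟩ := Submodule.mem_sup.1 hv
      obtain ⟨q, rfl⟩ := Submodule.mem_span_singleton.1 hy
      rw [Complex.exp_add]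
      exact ⟨cl_add (subset_cl _ (hsub (Or.inl hx))) (cl_qsmul (cl_mono hsub hs) q),
        cl_mul (subset_cl _ (hsub (Or.inr ⟨x, hx, rfl⟩)))
          (cl_exp_qsmul (subset_cl _ (mem_insert _ _)) q)⟩
    rintro w (hw | ⟨v, hv, rfl⟩)
    · exact (key w hw).1
    · exact (key v hv).2
  exact (rk_le_of_subset_cl h2).trans (AM.eRk_insert_le_add_one _ _)

/-- complex conjugation as a `ℚ`-algebra equivalence -/
noncomputable def conjQ : ℂ ≃ₐ[ℚ] ℂ := Complex.conjAe.restrictScalars ℚ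

@[simp] theorem conjQ_apply (z : ℂ) : conjQ z = (starRingEnd ℂ) z := rfl

theorem eRk_conj_le (X : Set ℂ) : AM.eRk (conjQ '' X) ≤ AM.eRk X := by
  rw [Matroid.eRk_le_iff]
  intro I hI hInd
  have hJ : AM.Indep (conjQ '' I) := by
    rw [AM, AlgebraicIndependent.matroid_indep_iff] at *
    have h1 : AlgebraicIndependent ℚ (fun x : I => conjQ (x : ℂ)) :=
      AlgebraicIndependent.map' (f := (conjQ : ℂ →ₐ[ℚ] ℂ)) hInd conjQ.injective
    have h2 := h1.to_subtype_range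
    have h3 : range (fun x : I => conjQ (x : ℂ)) = conjQ '' I := by
      ext y; simp
    rw [h3] at h2
    exact h2
  have hJX : conjQ '' I ⊆ X := by
    rintro _ ⟨x, hx, rfl⟩
    obtain ⟨y, hy, rfl⟩ := hI hx
    simpa using hy
  have := hJ.encard_le_eRk_of_subset hJX
  rwa [conjQ.injective.encard_image] at this

theorem gr_conj (X : Set ℂ) : gr (conjQ '' X) = conjQ '' (gr X) := by
  unfold gr
  rw [image_union]
  congr 1
  ext y
  constructor
  · rintro ⟨_, ⟨x, hx, rfl⟩, rfl⟩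
    refine ⟨Complex.exp x, ⟨x, hx, rfl⟩, ?_⟩
    simp [Complex.exp_conj]
  · rintro ⟨_, ⟨x, hx, rfl⟩, rfl⟩
    refine ⟨conjQ x, ⟨x, hx, rfl⟩, ?_⟩
    simp [Complex.exp_conj]

theorem rk_conj_le (X : Set ℂ) : rk (conjQ '' X) ≤ rk X := by
  unfold rk
  rw [gr_conj]
  exact eRk_conj_le _

end Pool.Agent.helper87
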