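import Mathlib
import Pool.Agent.helper87.Predim

/-! Reduction of Schanuel-type statements to subsets of `ℂ`. -/

namespace Pool.Agent.helper87

open Set

/-- Schanuel's statement with defect `c` for `n`-tuples with entries in `S`, in tuple form. -/
def SchanuelN (S : Set ℂ) (c n : ℕ) : Prop :=
  ∀ z : Fin n → ℂ, (∀ i, z i ∈ S) → LinearIndependent ℚ z →
    ∃ w : Fin (n - c) → ℂ,
      (∀ i, w i ∈ IntermediateField.adjoin ℚ
          (Set.range z ∪ Set.range (fun i => Complex.exp (z i)))) ∧
      AlgebraicIndependent ℚ w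

theorem adjoin_subset_cl (Y : Set ℂ) {x : ℂ} (hx : x ∈ IntermediateField.adjoin ℚ Y) :
    x ∈ AM.closure Y := by
  induction hx using IntermediateField.adjoin_induction with
  | mem x hx => exact subset_cl _ hx
  | algebraMap x => exact cl_rat x
  | add x y _ _ hx hy => exact cl_add hx hy
  | inv x _ hx => exact cl_inv hx
  | mul x y _ _ hx hy => exact cl_mul hx hy

theorem exists_indep_iff (Y : Set ℂ) (m : ℕ) :
    (∃ w : Fin m → ℂ, (∀ i, w i ∈ IntermediateField.adjoin ℚ Y) ∧ AlgebraicIndependent ℚ w) ↔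
      (m : ℕ∞) ≤ AM.eRk Y := by
  constructor
  · rintro ⟨w, hw, hind⟩
    have h1 : AM.Indep (range w) := by
      rw [AM, AlgebraicIndependent.matroid_indep_iff]
      exact hind.to_subtype_range
    have h2 : range w ⊆ AM.closure Y := by
      rintro _ ⟨i, rfl⟩
      exact adjoin_subset_cl Y (hw i)
    have h3 := h1.encard_le_eRk_of_subset h2
    rw [AM.eRk_closure_eq] at h3
    have h4 : (range w).encard = m := by
      rw [← image_univ, hind.injective.encard_image]
      simp
    rwa [h4] at h3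
  · intro h
    obtain ⟨I, hI⟩ := AM.exists_isBasis Y (by simp)
    rw [← hI.encard_eq_eRk] at h
    obtain ⟨J, hJI, hJ⟩ := Set.exists_subset_encard_eq h
    have hJfin : J.Finite := by
      rw [← Set.encard_ne_top_iff, hJ]
      simp
    have hJind : AM.Indep J := hI.indep.subset hJI
    rw [AM, AlgebraicIndependent.matroid_indep_iff] at hJind
    have := hJfin.fintype
    have hcard : Fintype.card J = m := by
      have := Set.encard_eq_coe_toFinset_card J
      rw [hJ] at this
      rw [← Set.toFinset_card]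
      exact_mod_cast this.symm
    let e : Fin m ≃ J := (Fintype.equivFinOfCardEq hcard).symm
    refine ⟨fun i => (e i : ℂ), ?_, ?_⟩
    · intro i
      exact IntermediateField.subset_adjoin ℚ Y (hI.subset (hJI (e i).2))
    · exact (algebraicIndependent_equiv e (f := fun x : J => (x : ℂ))).2 hJind

/-- Schanuel's statement with defect `c` for `n`-dimensional subspaces spanned by elements
of `S`. -/
def RankN (S : Set ℂ) (c n : ℕ) : Prop :=
  ∀ V : Submodule ℚ ℂ, FiniteDimensional ℚ V → Module.finrank ℚ V = n →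
    V ≤ Submodule.span ℚ ((V : Set ℂ) ∩ S) → ((n : ℕ) : ℕ∞) ≤ rk V + c

theorem gr_range {n : ℕ} (z : Fin n → ℂ) :
    gr (range z) = Set.range z ∪ Set.range (fun i => Complex.exp (z i)) := by
  unfold gr
  congr 1
  ext y
  simp

theorem schanuelN_iff (S : Set ℂ) (c n : ℕ) : SchanuelN S c n ↔ RankN S c n := by
  constructor
  · intro h V hfin hVn hV
    -- a basis in `V ∩ S`
    obtain ⟨b, hb, hspan, hind⟩ := exists_linearIndependent ℚ ((V : Set ℂ) ∩ S)
    have hVb : V = Submodule.span ℚ b := by
      apply le_antisymm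
      · rw [hspan]; exact hV
      · rw [Submodule.span_le]
        exact fun x hx => (hb hx).1
    have hbfin : b.Finite := by
      have : FiniteDimensional ℚ (Submodule.span ℚ b) := hVb ▸ hfin
      have hli : LinearIndependent ℚ
          (fun x : b => (⟨(x : ℂ), Submodule.subset_span x.2⟩ : Submodule.span ℚ b)) := by
        apply LinearIndependent.of_comp (Submodule.span ℚ b).subtype
        exact hind
      have := hli.finite
      exact Set.toFinite b
    have := hbfin.fintype
    have h3 : Fintype.card b = n := by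
      rw [← hVn, hVb, finrank_span_set_eq_card hind, Set.toFinset_card]
    let e : Fin n ≃ b := (Fintype.equivFinOfCardEq h3).symm
    have hrange : range (fun i => (e i : ℂ)) = b := by
      ext x
      constructor
      · rintro ⟨i, rfl⟩; exact (e i).2
      · intro hx
        exact ⟨e.symm ⟨x, hx⟩, by simp⟩
    have hz : LinearIndependent ℚ (fun i => (e i : ℂ)) := hind.comp e e.injective
    obtain ⟨w, hw, hwi⟩ := h (fun i => (e i : ℂ)) (fun i => (hb (e i).2).2) hz
    have h1 := (exists_indep_iff _ _).1 ⟨w, hw, hwi⟩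
    rw [← gr_range, hrange] at h1
    have h2 : rk (V : Set ℂ) = AM.eRk (gr b) := by
      rw [hVb, rk_span]; rfl
    rw [h2]
    calc (n : ℕ∞) ≤ ((n - c + c : ℕ) : ℕ∞) := by exact_mod_cast le_tsub_add
      _ = ((n - c : ℕ) : ℕ∞) + c := by push_cast; rfl
      _ ≤ _ := by gcongr
  · intro h z hz hzi
    rw [exists_indep_iff, ← gr_range]
    set V := Submodule.span ℚ (range z) with hV
    have hfin : FiniteDimensional ℚ V := FiniteDimensional.span_of_finite ℚ (Set.finite_range z)
    have h1 := h V hfin (by rw [hV, finrank_span_eq_card hzi, Fintype.card_fin]) (by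
      apply Submodule.span_mono
      rintro _ ⟨i, rfl⟩
      exact ⟨Submodule.subset_span ⟨i, rfl⟩, hz i⟩)
    rw [hV, rk_span] at h1
    change ((n - c : ℕ) : ℕ∞) ≤ rk (range z)
    rw [ENat.natCast_sub]
    exact tsub_le_iff_right.2 h1

theorem finrank_sup_singleton (V' : Submodule ℚ ℂ) [FiniteDimensional ℚ V'] {s : ℂ}
    (hsV : s ∉ V') :
    Module.finrank ℚ (V' ⊔ Submodule.span ℚ {s} : Submodule ℚ ℂ) = Module.finrank ℚ V' + 1 := by
  have hdisj : V' ⊓ Submodule.span ℚ {s} = ⊥ := by
    rw [Submodule.eq_bot_iff]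
    rintro x ⟨hx1, hx2⟩
    obtain ⟨q, rfl⟩ := Submodule.mem_span_singleton.1 hx2
    by_contra hne
    have hq : q ≠ 0 := by rintro rfl; simp at hne
    apply hsV
    have := V'.smul_mem q⁻¹ hx1
    rwa [smul_smul, inv_mul_cancel₀ hq, one_smul] at this
  have h3 := Submodule.finrank_sup_add_finrank_inf_eq V' (Submodule.span ℚ {s})
  rw [hdisj, finrank_bot] at h3
  have hs0 : s ≠ 0 := by rintro rfl; exact hsV (zero_mem _)
  rw [finrank_span_singleton hs0] at h3
  omega

theorem rk_sup_span_finset (V : Submodule ℚ ℂ) [FiniteDimensional ℚ V] (T : Finset ℂ)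
    (hT : ∀ s ∈ T, s ∈ AM.closure (gr V)) :
    rk (V ⊔ Submodule.span ℚ (T : Set ℂ) : Submodule ℚ ℂ) + (Module.finrank ℚ V : ℕ) ≤
      rk V + (Module.finrank ℚ (V ⊔ Submodule.span ℚ (T : Set ℂ) : Submodule ℚ ℂ) : ℕ) := by
  classical
  induction T using Finset.induction_on with
  | empty =>
    have : V ⊔ Submodule.span ℚ ((∅ : Finset ℂ) : Set ℂ) = V := by simp
    rw [this]
  | insert s T hs ih =>
    have ih' := ih (fun x hx => hT x (Finset.mem_insert_of_mem hx))
    set V' := V ⊔ Submodule.span ℚ (T : Set ℂ) with hV'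
    have : FiniteDimensional ℚ V' := by
      rw [hV']
      have := FiniteDimensional.span_of_finite ℚ T.finite_toSet
      infer_instance
    have hEq : V ⊔ Submodule.span ℚ ((insert s T : Finset ℂ) : Set ℂ) =
        V' ⊔ Submodule.span ℚ {s} := by
      rw [Finset.coe_insert, Submodule.span_insert, hV', sup_assoc,
        sup_comm (Submodule.span ℚ {s})]
    rw [hEq]
    by_cases hsV : s ∈ V'
    · have : V' ⊔ Submodule.span ℚ {s} = V' := by
        rw [sup_eq_left, Submodule.span_le]
        simpa using hsV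
      rw [this]
      exact ih'
    · have h1 : rk (V' ⊔ Submodule.span ℚ {s} : Submodule ℚ ℂ) ≤ rk V' + 1 := by
        apply rk_sup_span_singleton_le
        exact cl_mono (gr_mono (by rw [hV']; exact (le_sup_left : V ≤ _)))
          (hT s (Finset.mem_insert_self _ _))
      have h2 := finrank_sup_singleton V' hsV
      rw [h2]
      calc rk (V' ⊔ Submodule.span ℚ {s} : Submodule ℚ ℂ) + (Module.finrank ℚ V : ℕ)
          ≤ rk V' + 1 + (Module.finrank ℚ V : ℕ) := by gcongr
        _ = rk V' + (Module.finrank ℚ V : ℕ) + 1 := by ring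
        _ ≤ rk V + (Module.finrank ℚ V' : ℕ) + 1 := by gcongr
        _ = _ := by push_cast; ring

/-- every complex number is a rational combination of at most two points of `S` algebraic
over `v, v̄`. -/
def ConjSpans (S : Set ℂ) : Prop :=
  ∀ v : ℂ, ∃ T : Finset ℂ, T.card ≤ 2 ∧ (T : Set ℂ) ⊆ S ∧
    (∀ s ∈ T, s ∈ AM.closure {v, conjQ v}) ∧ v ∈ Submodule.span ℚ (T : Set ℂ)

/-- the `ℚ`-vector space of algebraic numbers is infinite dimensional -/
theorem exists_algebraic_not_mem (V : Submodule ℚ ℂ) [FiniteDimensional ℚ V] :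
    ∃ x : ℂ, IsAlgebraic ℚ x ∧ x ∉ V := by
  by_contra hcon
  push Not at hcon
  set N := Module.finrank ℚ V + 1 with hN
  -- a number of degree `N` : an `N`-th root of `2`
  have hirr : Irreducible (Polynomial.X ^ N - Polynomial.C (2 : ℤ)) := by
    have hE : (Polynomial.X ^ N - Polynomial.C (2 : ℤ)).IsEisensteinAt (Ideal.span {(2 : ℤ)}) := by
      have hmonic : (Polynomial.X ^ N - Polynomial.C (2 : ℤ)).Monic :=
        Polynomial.monic_X_pow_sub_C _ (by omega)
      refine ⟨?_, ?_, ?_⟩
      · rw [hmonic.leadingCoeff, Ideal.mem_span_singleton]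
        norm_num
      · intro n hn
        rw [Polynomial.natDegree_X_pow_sub_C] at hn
        rw [Polynomial.coeff_sub, Polynomial.coeff_X_pow, if_neg (by omega), Polynomial.coeff_C]
        split_ifs
        · rw [Ideal.mem_span_singleton]; norm_num
        · simp
      · rw [Polynomial.coeff_sub, Polynomial.coeff_X_pow, if_neg (by omega), Polynomial.coeff_C,
          if_pos rfl, pow_two, Ideal.span_singleton_mul_span_singleton, Ideal.mem_span_singleton]
        norm_num
    have hp : (Ideal.span {(2 : ℤ)}).IsPrime := by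
      rw [Ideal.span_singleton_prime (by norm_num)]
      exact Int.prime_two
    exact hE.irreducible hp (Polynomial.monic_X_pow_sub_C _ (by omega)).isPrimitive
      (by rw [Polynomial.natDegree_X_pow_sub_C]; omega)
  have hirrQ : Irreducible (Polynomial.X ^ N - Polynomial.C (2 : ℚ)) := by
    have := (Polynomial.Monic.irreducible_iff_irreducible_map_fraction_map (K := ℚ)
      (Polynomial.monic_X_pow_sub_C (2 : ℤ) (by omega : N ≠ 0))).1 hirr
    rw [Polynomial.map_sub, Polynomial.map_pow, Polynomial.map_X, Polynomial.map_C] at this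
    convert this using 3
    simp
  obtain ⟨x, hx⟩ : ∃ x : ℂ, x ^ N = 2 := by
    obtain ⟨x, hx⟩ := IsAlgClosed.exists_pow_nat_eq (2 : ℂ) (by omega : 0 < N)
    exact ⟨x, hx⟩
  have hmin : minpoly ℚ x = Polynomial.X ^ N - Polynomial.C (2 : ℚ) := by
    symm
    apply minpoly.eq_of_irreducible_of_monic hirrQ
    · simp [hx]
    · exact Polynomial.monic_X_pow_sub_C _ (by omega)
  have hxint : IsIntegral ℚ x := by
    refine ⟨Polynomial.X ^ N - Polynomial.C (2 : ℚ), Polynomial.monic_X_pow_sub_C _ (by omega), ?_⟩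
    simp [hx]
  have hli := linearIndependent_pow (K := ℚ) x
  rw [hmin, Polynomial.natDegree_X_pow_sub_C] at hli
  have hV : ∀ i : Fin N, x ^ (i : ℕ) ∈ V := fun i => hcon _ (hxint.isAlgebraic.pow _)
  have hli' : LinearIndependent ℚ (fun i : Fin N => (⟨x ^ (i : ℕ), hV i⟩ : V)) := by
    apply LinearIndependent.of_comp V.subtype
    exact hli
  have := hli'.fintype_card_le_finrank
  rw [Fintype.card_fin] at this
  omega

theorem exists_algebraic_mem_not_mem {S : Set ℂ} (hS : ConjSpans S) (V : Submodule ℚ ℂ)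
    [FiniteDimensional ℚ V] : ∃ s ∈ S, IsAlgebraic ℚ s ∧ s ∉ V := by
  obtain ⟨x, hx, hxV⟩ := exists_algebraic_not_mem V
  obtain ⟨T, -, hTS, hTcl, hTspan⟩ := hS x
  have hxc : IsAlgebraic ℚ (conjQ x) := hx.algHom (conjQ : ℂ →ₐ[ℚ] ℂ)
  have halg : ∀ s ∈ T, IsAlgebraic ℚ s := by
    intro s hs
    have h1 : s ∈ AM.closure {x, conjQ x} := hTcl s hs
    have h2 : AM.closure {x, conjQ x} ⊆ AM.closure ∅ := by
      apply cl_subset_cl
      rintro y (rfl | rfl)
      · exact cl_of_algebraic hx
      · exact cl_of_algebraic hxc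
    have h3 := h2 h1
    rw [mem_cl_iff] at h3
    have : Algebra.IsAlgebraic ℚ (Algebra.adjoin ℚ (∅ : Set ℂ)) := by
      rw [Algebra.adjoin_empty]
      refine ⟨?_⟩
      rintro ⟨y, hy⟩
      obtain ⟨q, rfl⟩ := Algebra.mem_bot.1 hy
      exact isAlgebraic_algebraMap q
    exact h3.restrictScalars ℚ
  by_contra hcon
  push Not at hcon
  apply hxV
  have : Submodule.span ℚ (T : Set ℂ) ≤ V := by
    rw [Submodule.span_le]
    intro s hs
    exact hcon s (hTS hs) (halg s hs)
  exact this hTspan

theorem rankN_pred {S : Set ℂ} (hS : ConjSpans S) {c n : ℕ} (h : RankN S c (n + 1)) :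
    RankN S c n := by
  intro V hfin hVn hV
  obtain ⟨s, hsS, hsalg, hsV⟩ := exists_algebraic_mem_not_mem hS V
  have h1 := finrank_sup_singleton V hsV
  have h2 := h (V ⊔ Submodule.span ℚ {s}) inferInstance (by rw [h1, hVn]) (by
    apply sup_le
    · exact hV.trans (Submodule.span_mono (inter_subset_inter_left _ (le_sup_left : V ≤ _)))
    · rw [Submodule.span_le]
      intro x hx
      have hx' : x = s := by simpa using hx
      subst hx'
      apply Submodule.subset_span
      exact ⟨(le_sup_right : _ ≤ V ⊔ Submodule.span ℚ {x}) (Submodule.mem_span_singleton_self x),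
        hsS⟩)
  have h3 := rk_sup_span_singleton_le (V := V) (cl_of_algebraic hsalg)
  have h4 : ((n : ℕ) : ℕ∞) + 1 ≤ (rk V + c) + 1 := by
    calc ((n : ℕ) : ℕ∞) + 1 = ((n + 1 : ℕ) : ℕ∞) := by push_cast; rfl
      _ ≤ _ := h2
      _ ≤ rk V + 1 + c := by gcongr
      _ = _ := by ring
  exact (ENat.add_le_add_iff_right (by simp)).1 h4

theorem rankN_of_le {S : Set ℂ} (hS : ConjSpans S) {c m n : ℕ} (hmn : m ≤ n)
    (h : RankN S c n) : RankN S c m := by
  induction n, hmn using Nat.le_induction with
  | base => exact h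
  | succ n _ ih => exact ih (rankN_pred hS h)

theorem rankN_univ_of_conjSpans {S : Set ℂ} (hS : ConjSpans S) {c n : ℕ}
    (h : RankN S c (4 * n)) : RankN univ c n := by
  classical
  -- conjugation invariant case
  have key : ∀ V : Submodule ℚ ℂ, FiniteDimensional ℚ V → Module.finrank ℚ V ≤ 2 * n →
      (∀ v ∈ V, conjQ v ∈ V) → ((Module.finrank ℚ V : ℕ) : ℕ∞) ≤ rk V + c := by
    intro V hfin hVn hconj
    let b := Module.finBasis ℚ V
    choose T hTcard hTS hTcl hTspan using hS
    let T' : Finset ℂ := Finset.univ.biUnion (fun i => T (b i : ℂ))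
    have hcard : T'.card ≤ 4 * n := by
      calc T'.card ≤ ∑ i, (T (b i : ℂ)).card := Finset.card_biUnion_le
        _ ≤ ∑ _i : Fin (Module.finrank ℚ V), 2 := Finset.sum_le_sum (fun i _ => hTcard _)
        _ = Module.finrank ℚ V * 2 := by simp
        _ ≤ 4 * n := by omega
    have h1 := rk_sup_span_finset V T' (by
      intro s hs
      obtain ⟨i, hi, hsv⟩ := Finset.mem_biUnion.1 hs
      apply cl_mono _ (hTcl _ s hsv)
      rintro x (rfl | rfl)
      · exact Or.inl (b i).2
      · exact Or.inl (hconj _ (b i).2))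
    set W := V ⊔ Submodule.span ℚ (T' : Set ℂ) with hW
    have hVT : V ≤ Submodule.span ℚ (T' : Set ℂ) := by
      intro v hv
      have hrepr := b.sum_repr ⟨v, hv⟩
      have hv' : v = ∑ i, b.repr ⟨v, hv⟩ i • (b i : ℂ) := by
        have := congrArg (fun x : V => (x : ℂ)) hrepr
        simp only [Submodule.coe_sum, Submodule.coe_smul] at this
        exact this.symm
      rw [hv']
      apply Submodule.sum_mem
      intro i _
      apply Submodule.smul_mem
      exact Submodule.span_mono (by
        intro x hx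
        exact Finset.mem_coe.2 (Finset.mem_biUnion.2 ⟨i, Finset.mem_univ _, hx⟩)) (hTspan _)
    have hWT : W = Submodule.span ℚ (T' : Set ℂ) := by rw [hW, sup_eq_right.2 hVT]
    have hfinW : FiniteDimensional ℚ W := by
      rw [hWT]
      exact FiniteDimensional.span_of_finite ℚ T'.finite_toSet
    have hWn : Module.finrank ℚ W ≤ 4 * n := by
      rw [hWT]
      exact (finrank_span_finset_le_card T').trans hcard
    have h2 := rankN_of_le (fun v => ⟨T v, hTcard v, hTS v, hTcl v, hTspan v⟩) hWn h W hfinW rfl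
      (by
        rw [hWT]
        apply Submodule.span_mono
        intro x hx
        refine ⟨Submodule.subset_span hx, ?_⟩
        obtain ⟨i, hi, hsv⟩ := Finset.mem_biUnion.1 (Finset.mem_coe.1 hx)
        exact hTS _ hsv)
    -- combine
    by_cases hr : rk (V : Set ℂ) = ⊤
    · rw [hr]; simp
    have hrW : rk (W : Set ℂ) ≠ ⊤ := by
      intro hW'
      rw [hW'] at h1
      rw [top_add, top_le_iff] at h1
      have := WithTop.add_eq_top.1 h1
      rcases this with h | h
      · exact hr h
      · exact absurd h (ENat.natCast_ne_top _)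
    obtain ⟨r, hr⟩ := ENat.ne_top_iff_exists.1 hr
    obtain ⟨r', hr'⟩ := ENat.ne_top_iff_exists.1 hrW
    rw [← hr, ← hr'] at h1
    rw [← hr'] at h2
    rw [← hr]
    norm_cast at h1 h2 ⊢
    omega
  intro V hfin hVn _
  let φ : ℂ →ₗ[ℚ] ℂ := conjQ.toLinearMap
  have hφinj : Function.Injective φ := conjQ.injective
  set V' := V.map φ with hV'
  have : FiniteDimensional ℚ V' := by rw [hV']; infer_instance
  have hfr : Module.finrank ℚ V' = Module.finrank ℚ V :=
    (Submodule.equivMapOfInjective φ hφinj V).finrank_eq.symm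
  have hrk : rk (V' : Set ℂ) ≤ rk V := by
    have : (V' : Set ℂ) = conjQ '' V := rfl
    rw [this]
    exact rk_conj_le _
  have hinv : ∀ x, φ (φ x) = x := by
    intro x
    change conjQ (conjQ x) = x
    simp
  have h4 := Submodule.finrank_sup_add_finrank_inf_eq V V'
  have h1 := key (V ⊓ V') inferInstance (by omega) (by
    rintro v ⟨hv, hv'⟩
    refine ⟨?_, ⟨v, hv, rfl⟩⟩
    obtain ⟨x, hx, rfl⟩ := hv'
    have := hinv x
    change φ (φ x) ∈ V
    rw [this]; exact hx)
  have h2 := key (V ⊔ V') inferInstance (by omega) (by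
    intro v hv
    obtain ⟨x, hx, y, hy, rfl⟩ := Submodule.mem_sup.1 hv
    obtain ⟨y, hy, rfl⟩ := hy
    rw [map_add]
    apply add_mem
    · exact (le_sup_right : V' ≤ V ⊔ V') ⟨x, hx, rfl⟩
    · have := hinv y
      change φ (φ y) ∈ _
      rw [this]
      exact (le_sup_left : V ≤ V ⊔ V') hy)
  have h3 := rk_submodular V V'
  by_cases hr : rk (V : Set ℂ) = ⊤
  · rw [hr]; simp
  have hsum : rk (V ⊓ V' : Submodule ℚ ℂ) + rk (V ⊔ V' : Submodule ℚ ℂ) ≤ rk V + rk V :=
    h3.trans (by gcongr)
  have hr1 : rk (V ⊓ V' : Submodule ℚ ℂ) ≠ ⊤ := by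
    intro h
    rw [h, top_add, top_le_iff] at hsum
    rcases WithTop.add_eq_top.1 hsum with h | h <;> exact hr h
  have hr2 : rk (V ⊔ V' : Submodule ℚ ℂ) ≠ ⊤ := by
    intro h
    rw [h, add_top, top_le_iff] at hsum
    rcases WithTop.add_eq_top.1 hsum with h | h <;> exact hr h
  obtain ⟨r, hr⟩ := ENat.ne_top_iff_exists.1 hr
  obtain ⟨r1, hr1⟩ := ENat.ne_top_iff_exists.1 hr1
  obtain ⟨r2, hr2⟩ := ENat.ne_top_iff_exists.1 hr2
  rw [← hr1] at h1 hsum
  rw [← hr2] at h2 hsum
  rw [← hr] at hsum ⊢
  norm_cast at h1 h2 hsum ⊢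
  omega

end Pool.Agent.helper87
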