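import Mathlib
import Pool.Agent.helper87.Reduction

/-! An arc of the unit circle spans every complex number algebraically. -/

namespace Pool.Agent.helper87

open Set Complex

/-- the open arc of the unit circle with arguments in `(a, b)` -/
def arc (a b : ℝ) : Set ℂ := {u | ∃ t : ℝ, a < t ∧ t < b ∧ u = Complex.exp (t * Complex.I)}

theorem isOpen_cone (a b : ℝ) :
    IsOpen {w : ℂ | ∃ r t : ℝ, 0 < r ∧ a < t ∧ t < b ∧ w = r * Complex.exp (t * Complex.I)} := by
  have h : {w : ℂ | ∃ r t : ℝ, 0 < r ∧ a < t ∧ t < b ∧ w = r * Complex.exp (t * Complex.I)} =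
      Complex.exp '' {z : ℂ | a < z.im ∧ z.im < b} := by
    ext w
    constructor
    · rintro ⟨r, t, hr, ha, hb, rfl⟩
      refine ⟨Real.log r + t * Complex.I, ?_, ?_⟩
      · simpa using ⟨ha, hb⟩
      · rw [Complex.exp_add, ← Complex.ofReal_exp, Real.exp_log hr]
    · rintro ⟨z, ⟨ha, hb⟩, rfl⟩
      refine ⟨Real.exp z.re, z.im, Real.exp_pos _, ha, hb, ?_⟩
      rw [Complex.ofReal_exp, ← Complex.exp_add, Complex.re_add_im]
  rw [h]
  apply Complex.isOpenMap_exp
  have h1 : Continuous Complex.im := Complex.continuous_im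
  exact (isOpen_lt continuous_const h1).inter (isOpen_lt h1 continuous_const)

theorem exists_ne_values {v : ℂ} (hv : v ≠ 0) {X : ℝ} (hX : 0 < X) (t h : ℝ)
    (hh : 0 < h) (hh' : h < 1) :
    ∃ s ∈ Icc (t - h) (t + h), ‖v + X * Complex.exp (s * Complex.I)‖ ≠
      ‖v + X * Complex.exp (t * Complex.I)‖ := by
  by_contra hcon
  push Not at hcon
  have hnorm : ∀ s : ℝ, ‖v + X * Complex.exp (s * Complex.I)‖ ^ 2 =
      v.re ^ 2 + v.im ^ 2 + X ^ 2 + 2 * X * (v.re * Real.cos s + v.im * Real.sin s) := by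
    intro s
    rw [← Complex.normSq_eq_norm_sq, Complex.normSq_apply, Complex.exp_mul_I,
      ← Complex.ofReal_cos, ← Complex.ofReal_sin]
    simp only [Complex.add_re, Complex.mul_re, Complex.ofReal_re, Complex.ofReal_im,
      Complex.add_im, Complex.mul_im, Complex.I_re, Complex.I_im]
    nlinarith [Real.sin_sq_add_cos_sq s]
  have e1 := hcon (t + h) ⟨by linarith, by linarith⟩
  have e2 := hcon (t - h) ⟨by linarith, by linarith⟩
  have f1 := hnorm (t + h)
  have f2 := hnorm (t - h)
  have f0 := hnorm t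
  rw [e1, f0, Real.cos_add, Real.sin_add] at f1
  rw [e2, f0, Real.cos_sub, Real.sin_sub] at f2
  have hsin : 0 < Real.sin h := Real.sin_pos_of_pos_of_lt_pi hh (by linarith [Real.pi_gt_three])
  have hcos : Real.cos h < 1 := by
    have := Real.sin_sq_add_cos_sq h
    nlinarith [Real.cos_le_one h, sq_nonneg (Real.sin h), mul_pos hsin hsin]
  set α := v.re * Real.cos t + v.im * Real.sin t with hα
  set β := v.im * Real.cos t - v.re * Real.sin t with hβ
  have g1 : X * (α - (α * Real.cos h + β * Real.sin h)) = 0 := by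
    rw [hα, hβ]; nlinarith [f1]
  have g2 : X * (α - (α * Real.cos h - β * Real.sin h)) = 0 := by
    rw [hα, hβ]; nlinarith [f2]
  have g1' := (mul_eq_zero.1 g1).resolve_left hX.ne'
  have g2' := (mul_eq_zero.1 g2).resolve_left hX.ne'
  have hβ0 : β = 0 := by
    have : β * Real.sin h = 0 := by linarith
    exact (mul_eq_zero.1 this).resolve_right hsin.ne'
  have hα0 : α = 0 := by
    have : α * (1 - Real.cos h) = 0 := by linarith
    exact (mul_eq_zero.1 this).resolve_right (by linarith)
  have hsum : v.re ^ 2 + v.im ^ 2 = 0 := by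
    have : v.re ^ 2 + v.im ^ 2 = α ^ 2 + β ^ 2 := by
      rw [hα, hβ]
      have := Real.sin_sq_add_cos_sq t
      nlinarith [this]
    rw [this, hα0, hβ0]; ring
  apply hv
  apply Complex.ext
  · have : v.re ^ 2 = 0 := by nlinarith [sq_nonneg v.re, sq_nonneg v.im]
    simpa using this
  · have : v.im ^ 2 = 0 := by nlinarith [sq_nonneg v.re, sq_nonneg v.im]
    simpa using this

/-- The arc lemma. -/
theorem exists_arc_points {a b : ℝ} (hab : a < b) {v : ℂ} (hv : v ≠ 0) :
    ∃ (X : ℕ) (q : ℚ) (s₁ s₂ : ℂ), 0 < X ∧ 0 < q ∧ s₁ ∈ arc a b ∧ s₂ ∈ arc a b ∧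
      v + X * s₁ = q * s₂ := by
  set t₁ : ℝ := (a + b) / 2 with ht₁
  have hO := isOpen_cone a b
  set O := {w : ℂ | ∃ r t : ℝ, 0 < r ∧ a < t ∧ t < b ∧ w = r * Complex.exp (t * Complex.I)}
    with hOdef
  have hmem : Complex.exp (t₁ * Complex.I) ∈ O :=
    ⟨1, t₁, one_pos, by rw [ht₁]; linarith, by rw [ht₁]; linarith, by simp⟩
  obtain ⟨δ, hδ, hball⟩ := Metric.isOpen_iff.1 hO _ hmem
  -- continuity of `exp (t I)`
  have hcont : Continuous (fun t : ℝ => Complex.exp (t * Complex.I)) := by fun_prop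
  obtain ⟨η, hη, hη'⟩ := Metric.continuous_iff.1 hcont t₁ (δ / 2) (half_pos hδ)
  obtain ⟨X, hX⟩ := exists_nat_gt (2 * ‖v‖ / δ)
  have hXpos : (0 : ℝ) < X := lt_of_le_of_lt (by positivity) hX
  have hXv : ‖v‖ / X < δ / 2 := by
    rw [div_lt_iff₀ hXpos]
    rw [div_lt_iff₀ hδ] at hX
    linarith
  set h : ℝ := min (min (η / 2) ((b - a) / 4)) (1 / 2) with hh
  have hhpos : 0 < h := by
    rw [hh]; refine lt_min (lt_min (by linarith) (by linarith)) (by norm_num)
  have hh1 : h < 1 := lt_of_le_of_lt (min_le_right _ _) (by norm_num)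
  have hhη : h < η := lt_of_le_of_lt ((min_le_left _ _).trans (min_le_left _ _)) (by linarith)
  have hhab : h ≤ (b - a) / 4 := (min_le_left _ _).trans (min_le_right _ _)
  obtain ⟨s, hs, hsne⟩ := exists_ne_values hv hXpos t₁ h hhpos hh1
  -- intermediate value
  set G : ℝ → ℝ := fun t => ‖v + (X : ℝ) * Complex.exp (t * Complex.I)‖ with hG
  have hGc : Continuous G := by rw [hG]; fun_prop
  have hlt : min (G s) (G t₁) < max (G s) (G t₁) := by
    rcases lt_or_gt_of_ne hsne with h' | h'
    · exact lt_of_le_of_lt (min_le_left _ _) (lt_of_lt_of_le h' (le_max_right _ _))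
    · exact lt_of_le_of_lt (min_le_right _ _) (lt_of_lt_of_le h' (le_max_left _ _))
  obtain ⟨q, hq1, hq2⟩ := exists_rat_btwn hlt
  have hqpos : (0 : ℝ) < q := lt_of_le_of_lt (le_min (norm_nonneg _) (norm_nonneg _)) hq1
  have hqmem : (q : ℝ) ∈ G '' (uIcc s t₁) := by
    apply intermediate_value_uIcc hGc.continuousOn
    rw [mem_uIcc]
    rcases le_total (G s) (G t₁) with h' | h'
    · rw [min_eq_left h'] at hq1; rw [max_eq_right h'] at hq2
      exact Or.inl ⟨hq1.le, hq2.le⟩
    · rw [min_eq_right h'] at hq1; rw [max_eq_left h'] at hq2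
      exact Or.inr ⟨hq1.le, hq2.le⟩
  obtain ⟨t, ht, hGt⟩ := hqmem
  have ht' : t ∈ Icc (t₁ - h) (t₁ + h) := by
    have : uIcc s t₁ ⊆ Icc (t₁ - h) (t₁ + h) :=
      uIcc_subset_Icc hs ⟨by linarith, by linarith⟩
    exact this ht
  have htη : dist t t₁ < η := by
    rw [Real.dist_eq, abs_lt]
    constructor <;> linarith [ht'.1, ht'.2]
  have hclose := hη' t htη
  have hin : Complex.exp (t * Complex.I) + v / X ∈ O := by
    apply hball
    rw [Metric.mem_ball, dist_eq_norm]
    have : Complex.exp (t * Complex.I) + v / X - Complex.exp (t₁ * Complex.I) =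
        (Complex.exp (t * Complex.I) - Complex.exp (t₁ * Complex.I)) + v / X := by ring
    rw [this]
    refine lt_of_le_of_lt (norm_add_le _ _) ?_
    rw [dist_eq_norm] at hclose
    have h2 : ‖v / (X : ℂ)‖ = ‖v‖ / X := by rw [norm_div, Complex.norm_natCast]
    rw [h2]
    linarith
  obtain ⟨r, θ, hr, haθ, hθb, hrθ⟩ := hin
  have hXc : (X : ℂ) ≠ 0 := by
    have : (X : ℝ) ≠ 0 := hXpos.ne'
    exact_mod_cast this
  have hmul : v + X * Complex.exp (t * Complex.I) = (X * r : ℝ) * Complex.exp (θ * Complex.I) := by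
    have : v + X * Complex.exp (t * Complex.I) =
        X * (Complex.exp (t * Complex.I) + v / X) := by
      field_simp
      ring
    rw [this, hrθ]
    push_cast
    ring
  have hq : (q : ℝ) = X * r := by
    rw [← hGt, hG]
    simp only
    rw [Complex.ofReal_natCast, hmul, norm_mul, Complex.norm_exp_ofReal_mul_I, mul_one,
      Complex.norm_real, Real.norm_of_nonneg (by positivity)]
  refine ⟨X, q, Complex.exp (t * Complex.I), Complex.exp (θ * Complex.I), by exact_mod_cast hXpos,
    by exact_mod_cast hqpos, ⟨t, ?_, ?_, rfl⟩, ⟨θ, haθ, hθb, rfl⟩, ?_⟩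
  · have := ht'.1; rw [ht₁] at this; linarith
  · have := ht'.2; rw [ht₁] at this; linarith
  · rw [hmul, ← hq]
    simp

theorem arc_mul_conj {a b : ℝ} {s : ℂ} (hs : s ∈ arc a b) : s * conjQ s = 1 := by
  obtain ⟨t, _, _, rfl⟩ := hs
  rw [conjQ_apply, ← Complex.exp_conj, ← Complex.exp_add]
  simp

theorem conjSpans_arc {a b : ℝ} (hab : a < b) : ConjSpans (arc a b) := by
  classical
  intro v
  by_cases hv : v = 0
  · refine ⟨∅, by simp, by simp, by simp, by simp [hv]⟩
  obtain ⟨X, q, s₁, s₂, hX, hq, h1, h2, heq⟩ := exists_arc_points hab hv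
  have hs1 := arc_mul_conj h1
  have hs2 := arc_mul_conj h2
  have hXc : (X : ℂ) ≠ 0 := by exact_mod_cast hX.ne'
  have hqc : (q : ℂ) ≠ 0 := by exact_mod_cast hq.ne'
  have hvc : conjQ v ≠ 0 := by
    intro h; apply hv
    exact (map_eq_zero conjQ).1 h
  -- the quadratic equation
  have hconj : conjQ v + X * conjQ s₁ = q * conjQ s₂ := by
    have := congrArg conjQ heq
    simpa [map_add, map_mul] using this
  have hquad : (X * conjQ v) * s₁ ^ 2 + (v * conjQ v + X ^ 2 - q ^ 2) * s₁ + X * v = 0 := by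
    have h3 : (v + X * s₁) * (conjQ v + X * conjQ s₁) = q ^ 2 := by
      rw [heq, hconj]
      calc (q : ℂ) * s₂ * (q * conjQ s₂) = q ^ 2 * (s₂ * conjQ s₂) := by ring
        _ = q ^ 2 := by rw [hs2, mul_one]
    have h4 : (v + X * s₁) * (conjQ v + X * conjQ s₁) * s₁ = q ^ 2 * s₁ := by rw [h3]
    have h5 : (v + X * s₁) * (conjQ v + X * conjQ s₁) * s₁ =
        (v + X * s₁) * (conjQ v * s₁ + X * (s₁ * conjQ s₁)) := by ring
    rw [h5, hs1] at h4
    linear_combination h4
  have hcl1 : s₁ ∈ AM.closure {v, conjQ v} := by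
    rw [mem_cl_iff]
    set A := Algebra.adjoin ℚ ({v, conjQ v} : Set ℂ) with hA
    have hvA : v ∈ A := Algebra.subset_adjoin (by simp)
    have hvA' : conjQ v ∈ A := Algebra.subset_adjoin (by simp)
    let v' : A := ⟨v, hvA⟩
    let w' : A := ⟨conjQ v, hvA'⟩
    let qA : A := algebraMap ℚ A q
    let p : Polynomial A := Polynomial.C ((X : A) * w') * Polynomial.X ^ 2 +
      Polynomial.C (v' * w' + (X : A) ^ 2 - qA ^ 2) * Polynomial.X +
      Polynomial.C ((X : A) * v')
    refine ⟨p, ?_, ?_⟩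
    · intro hp
      have hc := congrArg (fun f => Polynomial.coeff f 2) hp
      simp only [p, Polynomial.coeff_add, Polynomial.coeff_C_mul, Polynomial.coeff_X_pow,
        Polynomial.coeff_X, Polynomial.coeff_C, Polynomial.coeff_zero] at hc
      norm_num at hc
      rcases hc with hc | hc
      · exact hX.ne' hc
      · exact hvc (congrArg Subtype.val hc)
    · simp only [p, map_add, map_mul, map_pow, Polynomial.aeval_C, Polynomial.aeval_X]
      have : (algebraMap A ℂ) qA = q := by
        change ((algebraMap ℚ A q : A) : ℂ) = q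
        simp
      have e1 : (algebraMap A ℂ) v' = v := rfl
      have e2 : (algebraMap A ℂ) w' = conjQ v := rfl
      simp only [map_sub, map_add, map_mul, map_pow, map_natCast, this, e1, e2]
      exact hquad
  have hcl2 : s₂ ∈ AM.closure {v, conjQ v} := by
    have : s₂ = (q : ℂ)⁻¹ * (v + X * s₁) := by
      rw [heq]; field_simp
    rw [this]
    apply cl_mul
    · apply cl_inv; exact cl_rat q
    · apply cl_add
      · exact subset_cl _ (by simp)
      · apply cl_mul _ hcl1
        exact_mod_cast cl_rat (X := {v, conjQ v}) (X : ℚ)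
  refine ⟨{s₁, s₂}, Finset.card_le_two, ?_, ?_, ?_⟩
  · intro x hx
    rcases (by simpa using hx : x = s₁ ∨ x = s₂) with rfl | rfl <;> assumption
  · intro x hx
    rcases (by simpa using hx : x = s₁ ∨ x = s₂) with rfl | rfl <;> assumption
  · have : v = q • s₂ - (X : ℚ) • s₁ := by
      rw [Rat.smul_def, Rat.smul_def, ← heq]
      push_cast
      ring
    rw [this]
    apply sub_mem
    · exact Submodule.smul_mem _ _ (Submodule.subset_span (by simp))
    · exact Submodule.smul_mem _ _ (Submodule.subset_span (by simp))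

/-- Schanuel's statement for `4 n` points of an arc implies it for all `n`-tuples. -/
theorem schanuelN_of_arc (c n : ℕ) {a b : ℝ} (hab : a < b)
    (h : SchanuelN (arc a b) c (4 * n)) : SchanuelN univ c n := by
  rw [schanuelN_iff] at h ⊢
  exact rankN_univ_of_conjSpans (conjSpans_arc hab) h

end Pool.Agent.helper87
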